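import Pool.Agent.H19.ST.Tz

/-!
# [H19 ST GRP] groups

* `ce_ex`: a nontrivial finite group of exponent `p` has a central extension structure `CE p G G'` (`G'` the quotient by a central element of order `p`).
* `jor`: a subgroup of a finite group of exponent `p` which meets all conjugacy classes is everything.
* `onto2`: the image of `(φ', φ'')` is `H × H` if the images of the elements where the other one is trivial meet all classes.
* `mr_cent`: `F (z h) = ξ F h` for an element `z` of the image, `ξ ≠ 1`: the mean is zero.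
* `prd_cent`: `Θ = (φ', λ)`, `φ'` onto, `λ` not of the form `β ∘ φ'`: the image contains `(1, ofAdd 1)`.
* `e2 ν`: the cocycle `ν(x,y) - ν(x',y')` of `H × H`. `xt_exp`: the extension has exponent `p`. `xt_cent`: a homomorphism to `Xt e he` onto the quotient, without the centre in the image, splits `e`.
* `nsp`: if `e2 ν` splits then `ν` splits.

Proofs. `ce_ex`: `G` is a `p`-group, so the centre is not trivial: `y` central of order `p`, `G' = G ⧸ zpowers y`, `i a = y ^ a.val`, `pi = mk'`, `s` a section (`Function.surjInv`, changed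
to `s 1 = 1`), `et x` = the `a` with `x (s (pi x))⁻¹ = y ^ a.val`; card: `card_eq_card_quotient_mul_card_subgroup`. `jor`: `H77.WD.pg_char` (Pool/Agent/H77/WD/Pg.lean): if `R ≠ ⊤` there is a
nontrivial character which is trivial on `R`, so on all conjugates of the elements of `R` (the target is commutative). `onto2`: `R = (φ, φ').range`; `{h | (h, 1) ∈ R}` is a subgroup, every `g`
is conjugate to an element of it, so it is `⊤` by `jor`; the same for `(1, h)`. `prd_cent`: if there is `σ₀` with `φ σ₀ = 1`, `χ σ₀ ≠ 0`, take a power of `σ₀`; otherwise `χ` factors through `φ` and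
`β h = - χ (σ)` for any `σ` over `h` contradicts `h`. `xt_exp`: `(x ^ n).z = n x.z + ∑_{j<n} e x.r (x.r ^ j)` (induction with `x ^ (n+1) = x * x ^ n`). `xt_cent`: if there is `σ₀` with `r = 1`,
`z ≠ 0` take a power (the elements `⟨1, a⟩` are central, `⟨1, a⟩ * ⟨1, b⟩ = ⟨1, a + b⟩`); otherwise `Θ` is injective on `r`: `μ r = - (Θ σ).z` for any `σ` over `r`, `d1 μ = e`
(`(Θ (σ τ)).z = (Θ σ).z + (Θ τ).z + e`). `nsp`: `μ' h = μ (h, 1)`, `e2 ν (x,1) (y,1) = ν x y` (`Coc`: `ν 1 1 = 0`). `xt_conj`: `(g x g⁻¹) g = g x` compare `z`. `mr_cent`: reindex the sum over the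
image by `h ↦ z h`.
-/

set_option autoImplicit false
set_option linter.dupNamespace false

open scoped NumberField ComplexConjugate
open IsDedekindDomain
open scoped Classical

noncomputable section

namespace Pool.Agent.H19.ST

open H63.MA H38.BB H38.BG H57.PC H57.BRA H57.GP H77.PC3 H77.WD Pool.Agent.H19.NF
  Pool.Agent.H19.AB H86.AP

theorem ce_ex {p : ℕ} (hp : p.Prime) {G : Type} [Group G] [Fintype G] [Nontrivial G]
    (hG : ∀ x : G, x ^ p = 1) : ∃ (G' : Type) (_ : Group G') (_ : Fintype G'),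
      Nonempty (CE p G G') ∧ Nat.card G = p * Nat.card G' := by
  have hpf : Fact p.Prime := ⟨hp⟩
  obtain ⟨i, hi, hc⟩ := pg_cen hp (fun g => ⟨1, by rw [pow_one]; exact hG g⟩ : IsPGroup p G) inferInstance
  have hnorm : i.range.Normal := by
    refine ⟨fun n hn g => ?_⟩
    obtain ⟨z, rfl⟩ := hn
    rw [← hc z g, mul_inv_cancel_right]
    exact ⟨z, rfl⟩
  have hs : ∀ x : G ⧸ i.range, ∃ g : G, QuotientGroup.mk' i.range g = x ∧ (x = 1 → g = 1) := by
    intro x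
    by_cases hx : x = 1
    · exact ⟨1, by rw [map_one, hx], fun _ => rfl⟩
    · obtain ⟨g, hg⟩ := QuotientGroup.mk'_surjective i.range x
      exact ⟨g, hg, fun h' => absurd h' hx⟩
  choose sc hs1 hs2 using hs
  have hd : ∀ g : G, ∃ a : ZMod p, g = i (Multiplicative.ofAdd a) * sc (QuotientGroup.mk' i.range g) := by
    intro g
    have h1 : QuotientGroup.mk' i.range (g * (sc (QuotientGroup.mk' i.range g))⁻¹) = 1 := by
      rw [map_mul, map_inv, hs1, mul_inv_cancel]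
    obtain ⟨z, hz⟩ := (QuotientGroup.eq_one_iff _).1 h1
    exact ⟨Multiplicative.toAdd z, by rw [ofAdd_toAdd, hz, inv_mul_cancel_right]⟩
  choose et hd using hd
  have hpi : ∀ a, QuotientGroup.mk' i.range (i a) = 1 := fun a =>
    (QuotientGroup.eq_one_iff _).2 ⟨a, rfl⟩
  refine ⟨G ⧸ i.range, inferInstance, Fintype.ofFinite _, ⟨{
    pi := QuotientGroup.mk' i.range
    i := fun a => i (Multiplicative.ofAdd a)
    s := sc
    et := et
    i_add := fun a b => by rw [ofAdd_add, map_mul]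
    cent := fun a x => hc _ _
    pi_i := fun a => hpi _
    pi_s := hs1
    s_one := hs2 1 rfl
    dec := hd
    et_i := fun a x => ?_ }⟩, ?_⟩
  · have h1 := hd (i (Multiplicative.ofAdd a) * x)
    have h2 := hd x
    rw [map_mul, hpi, one_mul] at h1
    have h3 : i (Multiplicative.ofAdd (et (i (Multiplicative.ofAdd a) * x))) =
        i (Multiplicative.ofAdd (a + et x)) := by
      apply mul_right_cancel (b := sc (QuotientGroup.mk' i.range x))
      rw [← h1, ofAdd_add, map_mul, mul_assoc, ← h2]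
    exact Multiplicative.ofAdd.injective (hi h3)
  · rw [Subgroup.card_eq_card_quotient_mul_card_subgroup i.range, mul_comm]
    congr 1
    rw [← Nat.card_congr (MonoidHom.ofInjective hi).toEquiv, Nat.card_congr Multiplicative.toAdd, Nat.card_zmod]

theorem jor {p : ℕ} (hp : p.Prime) {G : Type} [Group G] [Finite G] (hG : ∀ x : G, x ^ p = 1)
    (R : Subgroup G) (h : ∀ g : G, ∃ r ∈ R, IsConj r g) : R = ⊤ := by
  by_contra hR
  obtain ⟨f, hf, hfR⟩ := pg_char hp (fun g => ⟨1, by rw [pow_one]; exact hG g⟩ : IsPGroup p G) R hR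
  apply hf
  ext g
  obtain ⟨r, hr, hg⟩ := h g
  obtain ⟨c, hc⟩ := isConj_iff.1 hg
  have h1 : f g = 1 := by
    rw [← hc, map_mul, map_mul, map_inv, hfR r hr, mul_one, mul_inv_cancel]
  rw [h1]
  rfl

theorem onto2 {p : ℕ} (hp : p.Prime) {Γ H : Type} [Group Γ] [Group H] [Finite H]
    (hH : ∀ x : H, x ^ p = 1) (φ φ' : Γ →* H) (h : ∀ g : H, ∃ τ, IsConj (φ τ) g ∧ φ' τ = 1)
    (h' : ∀ g : H, ∃ τ, IsConj (φ' τ) g ∧ φ τ = 1) : Function.Surjective (φ.prod φ') := by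
  have h1 := jor hp hH (φ'.ker.map φ) fun g => by
    obtain ⟨τ, h2, h3⟩ := h g
    exact ⟨φ τ, ⟨τ, MonoidHom.mem_ker.2 h3, rfl⟩, h2⟩
  have h2 := jor hp hH (φ.ker.map φ') fun g => by
    obtain ⟨τ, h2, h3⟩ := h' g
    exact ⟨φ' τ, ⟨τ, MonoidHom.mem_ker.2 h3, rfl⟩, h2⟩
  rintro ⟨x, y⟩
  obtain ⟨σ, hσ, hσx⟩ : x ∈ φ'.ker.map φ := by rw [h1]; exact Subgroup.mem_top _
  obtain ⟨τ, hτ, hτy⟩ : y ∈ φ.ker.map φ' := by rw [h2]; exact Subgroup.mem_top _
  refine ⟨σ * τ, ?_⟩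
  rw [MonoidHom.prod_apply, map_mul, map_mul, hσx, hτy, MonoidHom.mem_ker.1 hσ,
    MonoidHom.mem_ker.1 hτ, mul_one, one_mul]

theorem prd_cent {p : ℕ} (hp : p.Prime) {Γ H : Type} [Group Γ] [Group H] (φ : Γ →* H)
    (hφ : Function.Surjective φ) (χ : Γ →* Multiplicative (ZMod p))
    (h : ∀ β : H → ZMod p, (∀ x y, β (x * y) = β x + β y) →
      ∃ σ, Multiplicative.toAdd (χ σ) ≠ -β (φ σ)) (z : ZMod p) :
    ∃ σ, φ σ = 1 ∧ Multiplicative.toAdd (χ σ) = z := by
  haveI : NeZero p := ⟨hp.ne_zero⟩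
  haveI : Fact p.Prime := ⟨hp⟩
  by_cases hex : ∃ σ₀, φ σ₀ = 1 ∧ Multiplicative.toAdd (χ σ₀) ≠ 0
  · obtain ⟨σ₀, h1, h2⟩ := hex
    refine ⟨σ₀ ^ (z * (Multiplicative.toAdd (χ σ₀))⁻¹).val, by rw [map_pow, h1, one_pow], ?_⟩
    rw [map_pow, toAdd_pow, nsmul_eq_mul, ZMod.natCast_zmod_val, inv_mul_cancel_right₀ h2]
  · exfalso
    push Not at hex
    choose g hg using hφ
    have key : ∀ σ τ, φ σ = φ τ → Multiplicative.toAdd (χ σ) = Multiplicative.toAdd (χ τ) := by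
      intro σ τ hστ
      have h1 := hex (σ * τ⁻¹) (by rw [map_mul, map_inv, hστ, mul_inv_cancel])
      rw [map_mul, map_inv, toAdd_mul, toAdd_inv] at h1
      exact sub_eq_zero.1 (by rw [sub_eq_add_neg]; exact h1)
    obtain ⟨σ, hσ⟩ := h (fun x => -Multiplicative.toAdd (χ (g x))) fun x y => by
      have h1 := key (g (x * y)) (g x * g y) (by rw [map_mul, hg, hg, hg])
      rw [map_mul, toAdd_mul] at h1
      rw [h1]
      ring
    apply hσ
    rw [neg_neg]
    exact key _ _ (hg _).symm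

/-- the cocycle of the product -/
def e2 {p : ℕ} {H : Type} (ν : H → H → ZMod p) (x y : H × H) : ZMod p := ν x.1 y.1 - ν x.2 y.2

theorem e2_coc {p : ℕ} {H : Type} [Group H] {ν : H → H → ZMod p} (hν : Coc p ν) :
    Coc p (e2 ν) := by
  refine ⟨fun a => ?_, fun a => ?_, fun a b c => ?_⟩
  · show ν 1 a.1 - ν 1 a.2 = 0
    rw [hν.l1, hν.l1, sub_zero]
  · show ν a.1 1 - ν a.2 1 = 0
    rw [hν.r1, hν.r1, sub_zero]
  · show (ν b.1 c.1 - ν b.2 c.2) + (ν a.1 (b.1 * c.1) - ν a.2 (b.2 * c.2)) =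
      (ν (a.1 * b.1) c.1 - ν (a.2 * b.2) c.2) + (ν a.1 b.1 - ν a.2 b.2)
    linear_combination hν.co a.1 b.1 c.1 - hν.co a.2 b.2 c.2

theorem coc_of {p : ℕ} {H : Type} [Group H] {ν : H → H → ZMod p} (h1 : Nr2 ν)
    (h2 : ∀ x y z, d2 ν x y z = 0) : Coc p ν := by
  refine ⟨h1.l, h1.r, fun a b c => ?_⟩
  have h := h2 a b c
  unfold d2 at h
  linear_combination h

theorem xt_exp {p : ℕ} (hp : p.Prime) {R : Type} [Group R] {e : R → R → ZMod p} (he : Coc p e)
    (hR : ∀ r : R, r ^ p = 1) (hpw : ∀ r : R, ∑ j ∈ Finset.range p, e r (r ^ j) = 0)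
    (x : Xt e he) : x ^ p = 1 := by
  have h1 : pw e x.r = 0 := by
    rw [← hpw x.r]
    unfold pw
    refine Finset.sum_congr rfl fun k _ => ?_
    have h2 := iv_self_pow he x.r k 1
    rw [pow_one] at h2
    exact sub_eq_zero.1 h2
  exact grp_pw_zero he (hR x.r) h1 x.z

theorem e2_pw {p : ℕ} {H : Type} [Group H] {ν : H → H → ZMod p}
    (hpw : ∀ h : H, ∑ j ∈ Finset.range p, ν h (h ^ j) = 0) (r : H × H) :
    ∑ j ∈ Finset.range p, e2 ν r (r ^ j) = 0 := by
  have h1 : ∀ j ∈ Finset.range p, e2 ν r (r ^ j) = ν r.1 (r.1 ^ j) - ν r.2 (r.2 ^ j) :=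
    fun j _ => rfl
  rw [Finset.sum_congr rfl h1, Finset.sum_sub_distrib, hpw, hpw, sub_zero]

instance xt_fin {p : ℕ} [NeZero p] {R : Type} [Group R] [Finite R] (e : R → R → ZMod p)
    (he : Coc p e) : Finite (Xt e he) := by
  refine Finite.of_injective (fun x : Xt e he => (x.r, x.z)) fun x y h => ?_
  exact Xt.ext (congrArg Prod.fst h) (congrArg Prod.snd h)

theorem xt_cent {p : ℕ} (hp : p.Prime) {Γ R : Type} [Group Γ] [Group R] {e : R → R → ZMod p}
    (he : Coc p e) (Θ : Γ →* Xt e he) (hs : ∀ r : R, ∃ σ, (Θ σ).r = r)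
    (h : ¬ ∃ μ : R → ZMod p, ∀ x y, d1 μ x y = e x y) (z : ZMod p) :
    ∃ σ, (Θ σ).r = 1 ∧ (Θ σ).z = z := by
  haveI : NeZero p := ⟨hp.ne_zero⟩
  haveI : Fact p.Prime := ⟨hp⟩
  have hpow : ∀ (x : Xt e he) (n : ℕ), x.r = 1 → (x ^ n).r = 1 ∧ (x ^ n).z = n * x.z := by
    intro x n hx
    have h1 : x ^ n = (⟨1, x.z⟩ : Xt e he) ^ n := by rw [← hx]
    rw [h1, pw_lift he 1 x.z n]
    refine ⟨one_pow n, ?_⟩
    show (n : ZMod p) * x.z + ∑ k ∈ Finset.range n, e (1 ^ k) 1 = n * x.z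
    rw [Finset.sum_eq_zero (fun k _ => he.r1 _), add_zero]
  by_cases hex : ∃ σ₀, (Θ σ₀).r = 1 ∧ (Θ σ₀).z ≠ 0
  · obtain ⟨σ₀, h1, h2⟩ := hex
    refine ⟨σ₀ ^ (z * ((Θ σ₀).z)⁻¹).val, ?_, ?_⟩
    · rw [map_pow]
      exact (hpow _ _ h1).1
    · rw [map_pow, (hpow _ _ h1).2, ZMod.natCast_zmod_val, inv_mul_cancel_right₀ h2]
  · exfalso
    push Not at hex
    choose g hg using hs
    have key : ∀ σ τ, (Θ σ).r = (Θ τ).r → Θ σ = Θ τ := by
      intro σ τ hστ
      have h1 : (Θ (σ * τ⁻¹)).r = 1 := by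
        rw [map_mul, map_inv, grp_mul_r, grp_inv_r, hστ, mul_inv_cancel]
      have h2 : Θ (σ * τ⁻¹) = 1 := Xt.ext h1 (hex _ h1)
      rw [map_mul, map_inv] at h2
      exact mul_inv_eq_one.1 h2
    apply h
    refine ⟨fun r => -(Θ (g r)).z, fun x y => ?_⟩
    have h1 := congrArg Xt.z (key (g (x * y)) (g x * g y) (by
      rw [map_mul, grp_mul_r, hg, hg, hg]))
    rw [map_mul, xt_mul] at h1
    have h2 : (Θ (g (x * y))).z = (Θ (g x)).z + (Θ (g y)).z + e x y := by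
      rw [h1]
      show (Θ (g x)).z + (Θ (g y)).z + e (Θ (g x)).r (Θ (g y)).r = _
      rw [hg, hg]
    show -(Θ (g y)).z - -(Θ (g (x * y))).z + -(Θ (g x)).z = e x y
    rw [h2]
    ring

theorem nsp {p : ℕ} {H : Type} [Group H] {ν : H → H → ZMod p} (hν : Coc p ν)
    (h : ¬ ∃ μ : H → ZMod p, ∀ x y, d1 μ x y = ν x y) :
    ¬ ∃ μ : H × H → ZMod p, ∀ x y, d1 μ x y = e2 ν x y := by
  rintro ⟨μ, hμ⟩
  refine h ⟨fun x => μ (x, 1), fun x y => ?_⟩
  have h1 := hμ (x, 1) (y, 1)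
  have h2 : e2 ν (x, (1 : H)) (y, (1 : H)) = ν x y := by
    show ν x y - ν 1 1 = ν x y
    rw [hν.l1, sub_zero]
  rw [h2] at h1
  rw [← h1]
  show μ (y, 1) - μ (x * y, 1) + μ (x, 1) = μ (y, 1) - μ ((x, (1 : H)) * (y, (1 : H))) + μ (x, 1)
  rw [Prod.mk_mul_mk, mul_one]

/-- conjugation in the extension -/
theorem xt_conj {p : ℕ} {R : Type} [Group R] {e : R → R → ZMod p} (he : Coc p e)
    (g x : Xt e he) : (g * x * g⁻¹).r = g.r * x.r * g.r⁻¹ ∧
      (g * x * g⁻¹).z = x.z + e g.r x.r - e (g.r * x.r * g.r⁻¹) g.r := by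
  refine ⟨rfl, ?_⟩
  have h1 : (g * x * g⁻¹) * g = g * x := by group
  have h2 := congrArg Xt.z h1
  have h3 : (g * x * g⁻¹).r = g.r * x.r * g.r⁻¹ := rfl
  have h4 : (g * x * g⁻¹).z + g.z + e (g * x * g⁻¹).r g.r = g.z + x.z + e g.r x.r := h2
  rw [h3] at h4
  linear_combination h4

theorem mr_cent {K : Type} [Field K] [NumberField K] {Ω : Type} [Field Ω] [Algebra K Ω]
    {H : Type} [Group H] [Fintype H] (Θ : Gal(Ω/K) →* H) (F : H → ℂ) (z : H)
    (hz : z ∈ Θ.range) {ξ : ℂ} (hξ : ξ ≠ 1) (hF : ∀ h : H, F (z * h) = ξ * F h) :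
    mr Θ F = 0 := by
  unfold mr
  have h1 : ∑ y ∈ Finset.univ.filter (fun y : H => y ∈ Θ.range), F y =
      ξ * ∑ y ∈ Finset.univ.filter (fun y : H => y ∈ Θ.range), F y := by
    rw [Finset.mul_sum]
    symm
    refine Finset.sum_bij (fun y _ => z * y) (fun y hy => ?_) (fun a _ b _ hab => mul_left_cancel hab)
      (fun y hy => ⟨z⁻¹ * y, ?_, mul_inv_cancel_left z y⟩) (fun y _ => (hF y).symm)
    · rw [Finset.mem_filter] at hy ⊢
      exact ⟨Finset.mem_univ _, Subgroup.mul_mem _ hz hy.2⟩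
    · rw [Finset.mem_filter] at hy ⊢
      exact ⟨Finset.mem_univ _, Subgroup.mul_mem _ (Subgroup.inv_mem _ hz) hy.2⟩
  have h2 : ∑ y ∈ Finset.univ.filter (fun y : H => y ∈ Θ.range), F y = 0 := by
    have h3 : (1 - ξ) * ∑ y ∈ Finset.univ.filter (fun y : H => y ∈ Θ.range), F y = 0 := by
      linear_combination h1
    exact (mul_eq_zero.1 h3).resolve_left (sub_ne_zero.2 hξ.symm)
  rw [h2, mul_zero]

end Pool.Agent.H19.ST
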