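import Pool.Agent.H86.AP.Stp
import Pool.Agent.H4.AP.Vc
import Pool.Agent.H19.AB.Leq

/-!
# [H19 ST TZ] the embedding of `ZMod p` in `ZMod (p^m)`

`tz p m : ZMod p →+ ZMod (p^m)`, `a ↦ p^(m-1) a`. `tz_inj`, `tz_tor` (all elements killed by `p`), `tz_div` (divisibility), `tz_ch : ch (p^m) (tz a) = ch p a`.
-/

set_option autoImplicit false
set_option linter.dupNamespace false

open scoped NumberField ComplexConjugate
open IsDedekindDomain
open scoped Classical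

noncomputable section

namespace Pool.Agent.H19.ST

open H63.MA H38.BB H38.BG H57.PC H57.BRA H57.GP H77.PC3 H77.WD Pool.Agent.H19.NF
  Pool.Agent.H19.AB H86.AP

/-- the embedding `a ↦ p^(m-1) a` -/
def tz (p m : ℕ) : ZMod p →+ ZMod (p ^ m) :=
  ZMod.lift p ⟨(zmultiplesHom (ZMod (p ^ m))) (((p : ZMod (p ^ m)) ^ (m - 1))), by
    rw [zmultiplesHom_apply]
    rcases Nat.eq_zero_or_pos m with h | h
    · subst h
      have : Subsingleton (ZMod (p ^ 0)) := by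
        rw [pow_zero]
        infer_instance
      exact Subsingleton.elim _ _
    · rw [natCast_zsmul, nsmul_eq_mul, mul_comm, ← pow_succ, Nat.sub_add_cancel h,
        ← Nat.cast_pow, ZMod.natCast_self]⟩

private theorem tz_nat (p m k : ℕ) : tz p m (k : ZMod p) = ((k * p ^ (m - 1) : ℕ) : ZMod (p ^ m)) := by
  have h : ((k : ℕ) : ZMod p) = ((k : ℤ) : ZMod p) := by rw [Int.cast_natCast]
  rw [h]
  unfold tz
  rw [ZMod.lift_coe]
  show (zmultiplesHom (ZMod (p ^ m))) (((p : ZMod (p ^ m)) ^ (m - 1))) (k : ℤ) = _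
  rw [zmultiplesHom_apply, natCast_zsmul, nsmul_eq_mul]
  push_cast
  ring

theorem tz_inj {p m : ℕ} (hp : p.Prime) (hm : 1 ≤ m) : Function.Injective (tz p m) := by
  have : NeZero p := ⟨hp.ne_zero⟩
  rw [injective_iff_map_eq_zero]
  intro a ha
  have h1 : a = ((a.val : ℕ) : ZMod p) := (ZMod.natCast_zmod_val a).symm
  rw [h1, tz_nat, ZMod.natCast_eq_zero_iff] at ha
  have h2 : p ^ m = p * p ^ (m - 1) := by
    rw [mul_comm, ← pow_succ, Nat.sub_add_cancel hm]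
  rw [h2] at ha
  have h3 : p ∣ a.val := Nat.dvd_of_mul_dvd_mul_right (pow_pos hp.pos _) ha
  rw [h1, ZMod.natCast_eq_zero_iff]
  exact h3

theorem tz_tor {p m : ℕ} (hp : p.Prime) (hm : 1 ≤ m) (x : ZMod (p ^ m)) (hx : p • x = 0) :
    ∃ a, tz p m a = x := by
  have : NeZero (p ^ m) := ⟨pow_ne_zero _ hp.ne_zero⟩
  have h1 : x = ((x.val : ℕ) : ZMod (p ^ m)) := (ZMod.natCast_zmod_val x).symm
  rw [h1, nsmul_eq_mul, ← Nat.cast_mul, ZMod.natCast_eq_zero_iff] at hx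
  have h2 : p ^ m = p * p ^ (m - 1) := by
    rw [mul_comm, ← pow_succ, Nat.sub_add_cancel hm]
  obtain ⟨k, hk⟩ := Nat.dvd_of_mul_dvd_mul_left hp.pos ((dvd_of_eq h2.symm).trans hx)
  refine ⟨(k : ZMod p), ?_⟩
  rw [tz_nat, h1, hk, mul_comm]

theorem tz_div {p m k : ℕ} (hp : p.Prime) (hk : k + 1 ≤ m) (x : ZMod (p ^ m))
    (hx : p ^ k • x = 0) : ∃ y, p • y = x := by
  have : NeZero (p ^ m) := ⟨pow_ne_zero _ hp.ne_zero⟩
  have h1 : x = ((x.val : ℕ) : ZMod (p ^ m)) := (ZMod.natCast_zmod_val x).symm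
  rw [h1, nsmul_eq_mul, ← Nat.cast_mul, ZMod.natCast_eq_zero_iff] at hx
  have h2 : p ^ m = p ^ k * p ^ (m - k) := by
    rw [← pow_add, Nat.add_sub_cancel' (by omega)]
  have h3' : p ^ k * p ^ (m - k) ∣ p ^ k * x.val := (dvd_of_eq h2.symm).trans hx
  have h3 : p ^ (m - k) ∣ x.val := Nat.dvd_of_mul_dvd_mul_left (pow_pos hp.pos _) h3'
  have h4 : p ∣ x.val := (dvd_pow_self p (by omega)).trans h3
  obtain ⟨y, hy⟩ := h4
  refine ⟨(y : ZMod (p ^ m)), ?_⟩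
  rw [h1, hy, nsmul_eq_mul, ← Nat.cast_mul]

theorem tz_circle {p m : ℕ} (hp : p.Prime) (hm : 1 ≤ m) [NeZero p] [NeZero (p ^ m)] (a : ZMod p) :
    ZMod.toAddCircle (tz p m a) = ZMod.toAddCircle a := by
  have h1 : a = ((a.val : ℕ) : ZMod p) := (ZMod.natCast_zmod_val a).symm
  have hp0 : (p : ℝ) ≠ 0 := by exact_mod_cast hp.ne_zero
  rw [h1, tz_nat, ZMod.toAddCircle_natCast, ZMod.toAddCircle_natCast]
  congr 1
  have h2 : ((p ^ m : ℕ) : ℝ) = p ^ (m - 1) * p := by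
    rw [← pow_succ, Nat.sub_add_cancel hm, Nat.cast_pow]
  rw [h2]
  push_cast
  field_simp

theorem tz_ch {p m : ℕ} (hp : p.Prime) (hm : 1 ≤ m) [NeZero p] [NeZero (p ^ m)] (a : ZMod p) :
    ec (ZMod.toAddCircle (tz p m a)) = ch p a := by
  rw [tz_circle hp hm]
  rfl

end Pool.Agent.H19.ST
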