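import Pool.Agent.H19.ST.Grp

/-!
# [H19 ST CAU] the dependence on the new prime of the difference of two values of J

`w = κ ∘ π + θ (ν ∪ et)`, two records `LR` with the same class `c`: the difference of `JJ I w φ₁ (φ^u)` is a constant plus `θ` of the central coordinate of a
homomorphism `R` to the extension `Xt (e2 ν)` of `H × H` at `F_u`.
-/

set_option autoImplicit false
set_option linter.dupNamespace false

open scoped NumberField ComplexConjugate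
open IsDedekindDomain
open scoped Classical

noncomputable section

namespace Pool.Agent.H19.ST

open H63.MA H38.BB H38.BG H57.PC H57.BRA H57.GP H77.PC3 H77.WD H89.BRG H48.MF
  Pool.Agent.H19.NF Pool.Agent.H19.AB H86.AP

variable {K : Type} [Field K] [NumberField K] {Ω : Type} [Field Ω] [Algebra K Ω]
  [IsAlgClosure K Ω] {p : ℕ} {ζ : K} {G H : Type} [Group G] [Group H]

theorem cau [NeZero p] (E : CE p G H) (hp : p.Prime) (hp2 : MOne p K) (hζ : IsPrimitiveRoot ζ p)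
    (hz : Z2 p K) {D : RD0 K p ζ} {L : LDs D Ω} {Q : DP K Ω} {Fr : FR L} {lam : Pl K → ZMod p}
    (hone : ∀ v, D.Gd v → lam v = 1) {m : ℕ} [NeZero (p ^ m)]
    {I : (Gal(Ω/K) → Gal(Ω/K) → Gal(Ω/K) → ZMod (p ^ m)) →+ AddCircle (1 : ℝ)}
    (hI : Fnl p D L Q Fr lam m I) [Finite G] (hG : ∀ g : G, g ^ p = 1) {φ₁ : Gal(Ω/K) →* G}
    {φ φ' : Gal(Ω/K) →* H} (h : H38.ML.FT φ) (h' : H38.ML.FT φ')
    (hT : Teq D.S0 Q φ (E.pi.comp φ₁)) (hT' : Teq D.S0 Q φ' (E.pi.comp φ₁)) {s s' : Pl K → G}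
    {c : Fin D.r → ZMod p} {ρ ρ' : Gal(Ω/K) →* G} (hR : LR E L Q φ₁ φ s c ρ)
    (hR' : LR E L Q φ₁ φ' s' c ρ') {ν : H → H → ZMod p} (hν : Coc p ν)
    (hpw : ∀ h, ∑ j ∈ Finset.range p, ν h (h ^ j) = 0) {T T' : Finset (Pl K)}
    (hu : ∀ v, v ∉ D.S0 → v ∉ T → φ (L.t v) = 1) (hu' : ∀ v, v ∉ D.S0 → v ∉ T' → φ' (L.t v) = 1)
    (hb : ∀ v ∈ T, br ν (φ (L.t v)) (φ (Fr.F v)) = 0)
    (hb' : ∀ v ∈ T', br ν (φ' (L.t v)) (φ' (Fr.F v)) = 0) {κ : H → H → H → ZMod (p ^ m)}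
    {θ : ZMod p →+ ZMod (p ^ m)} {w : G → G → G → ZMod (p ^ m)} (hw : ∀ x y z, w x y z =
      κ (E.pi x) (E.pi y) (E.pi z) + θ (ν (E.pi x) (E.pi y) * E.et z)) :
    ∃ (R : Gal(Ω/K) →* Xt (e2 ν) (e2_coc hν)) (C0 : AddCircle (1 : ℝ)), H38.ML.FT R ∧
      (∀ σ, (R σ).r = (φ σ, φ' σ)) ∧ (∀ v, v ∉ D.S0 → (R (L.t v)).z = 0) ∧
      ∀ u, D.Gd u → D.q u = c →
        JJ I w φ₁ (tw E ρ (kc p ζ Ω (D.pi u))) - JJ I w φ₁ (tw E ρ' (kc p ζ Ω (D.pi u))) =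
          C0 + ZMod.toAddCircle (θ (R (Fr.F u)).z) := by
  have hF : Fact p.Prime := ⟨hp⟩
  have hHf : Finite H := fin_H E
  have hH : ∀ x : H, x ^ p = 1 := exp_H E hG
  have he := e2_coc hν
  have hft := ft_prod h h'
  -- the cocycle splits on the Galois group
  have hTv : Tv (pb (e2 ν) (φ.prod φ')) := by
    refine brg1f hp hp2 hζ hz (L := L) Q Fr he hft (fun v hv => ?_)
      (fun v _ τ _ => Prod.ext (hH _) (hH _)) (fun v hv => ?_)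
    · obtain ⟨F, hF', -⟩ := hft
      refine ⟨fun _ => 0, ⟨F, hF', fun _ _ _ => rfl⟩, fun σ hσ τ hτ => ?_⟩
      show (0 : ZMod p) = 0 + 0 + (ν (φ σ) (φ τ) - ν (φ' σ) (φ' τ))
      rw [hT v hv σ hσ, hT v hv τ hτ, hT' v hv σ hσ, hT' v hv τ hτ]
      ring
    · show (ν (φ (Fr.F v)) (φ (L.t v)) - ν (φ' (Fr.F v)) (φ' (L.t v))) -
        (ν (φ (L.t v)) (φ (Fr.F v)) - ν (φ' (L.t v)) (φ' (Fr.F v))) = 0
      have e1 : ν (φ (L.t v)) (φ (Fr.F v)) - ν (φ (Fr.F v)) (φ (L.t v)) = 0 := by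
        by_cases hv' : v ∈ T
        · exact hb v hv'
        · rw [hu v hv hv', hν.l1, hν.r1, sub_zero]
      have e2 : ν (φ' (L.t v)) (φ' (Fr.F v)) - ν (φ' (Fr.F v)) (φ' (L.t v)) = 0 := by
        by_cases hv' : v ∈ T'
        · exact hb' v hv'
        · rw [hu' v hv hv', hν.l1, hν.r1, sub_zero]
      linear_combination e2 - e1
  obtain ⟨l, ⟨F, hF1, hl1⟩, hl2⟩ := hTv
  have hl2' : ∀ σ τ, l (σ * τ) = l σ + l τ + e2 ν (φ σ, φ' σ) (φ τ, φ' τ) := hl2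
  have hl0 : l 1 = 0 := by
    have h1 := hl2' 1 1
    have h2 : e2 ν (φ 1, φ' 1) (φ 1, φ' 1) = 0 := by
      have h3 : ((φ 1, φ' 1) : H × H) = 1 := by
        rw [map_one, map_one]
        rfl
      rw [h3, he.l1]
    rw [h2, add_zero, mul_one] at h1
    linear_combination -h1
  let R₀ : Gal(Ω/K) →* Xt (e2 ν) he := MonoidHom.mk' (fun σ => ⟨(φ σ, φ' σ), l σ⟩) (by
    intro σ τ
    rw [Xt.ext_iff]
    refine ⟨?_, hl2' σ τ⟩
    show ((φ (σ * τ), φ' (σ * τ)) : H × H) = (φ σ, φ' σ) * (φ τ, φ' τ)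
    rw [map_mul, map_mul]
    rfl)
  have hR₀ft : H38.ML.FT R₀ := by
    obtain ⟨F', hF', h2⟩ := hft
    refine ⟨F ⊔ F', IntermediateField.finiteDimensional_sup _ _, fun u hu => ?_⟩
    have h3 : u ∈ F.fixingSubgroup := IntermediateField.fixingSubgroup_antitone le_sup_left hu
    have h4 : (φ.prod φ') u = 1 := MonoidHom.mem_ker.1
      (h2 (IntermediateField.fixingSubgroup_antitone le_sup_right hu))
    have h5 : l u = 0 := by
      have := hl1 1 u h3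
      rw [one_mul] at this
      rw [this, hl0]
    rw [MonoidHom.mem_ker, Xt.ext_iff]
    exact ⟨h4, h5⟩
  obtain ⟨T₂, hT₂1, hT₂2⟩ := ts_supp hp L hR₀ft
  set x : Kˣ := pT D T₂ fun v => l (L.t v) with hx
  have hxt : ∀ v, v ∉ D.S0 → kk p ζ x (L.t v) = l (L.t v) := by
    intro v hv
    rw [hx, pT_kk hp hζ]
    have e1 : ∀ w ∈ T₂, l (L.t w) * kk p ζ (D.pi w) (L.t v) = if v = w then l (L.t w) else 0 := by
      intro w hw
      by_cases hvw : v = w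
      · rw [if_pos hvw, (kk_pi hp hζ D L w v (hT₂1 w hw) hv).1 hvw.symm, mul_one]
      · rw [if_neg hvw, (kk_pi hp hζ D L w v (hT₂1 w hw) hv).2 (fun h => hvw h.symm), mul_zero]
    rw [Finset.sum_congr rfl e1, Finset.sum_ite_eq]
    by_cases hvT : v ∈ T₂
    · rw [if_pos hvT]
    · rw [if_neg hvT]
      exact (congrArg Xt.z (hT₂2 v hv hvT)).symm
  have hkm : ∀ (y : Kˣ) (σ τ : Gal(Ω/K)), kk p ζ y (σ * τ) = kk p ζ y σ + kk p ζ y τ := by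
    intro y σ τ
    rw [← kk_kc, map_mul, toAdd_mul, kk_kc, kk_kc]
  have hk1 : ∀ y : Kˣ, kk p ζ y (1 : Gal(Ω/K)) = 0 := by
    intro y
    rw [← kk_kc, map_one, toAdd_one]
  let R : Gal(Ω/K) →* Xt (e2 ν) he := MonoidHom.mk' (fun σ => ⟨(φ σ, φ' σ), l σ - kk p ζ x σ⟩) (by
    intro σ τ
    rw [Xt.ext_iff]
    refine ⟨?_, ?_⟩
    · show ((φ (σ * τ), φ' (σ * τ)) : H × H) = (φ σ, φ' σ) * (φ τ, φ' τ)
      rw [map_mul, map_mul]
      rfl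
    · show l (σ * τ) - kk p ζ x (σ * τ) = (l σ - kk p ζ x σ) + (l τ - kk p ζ x τ) +
        e2 ν (φ σ, φ' σ) (φ τ, φ' τ)
      rw [hl2', hkm]
      ring)
  have hRz : ∀ σ, (R σ).z = l σ - kk p ζ x σ := fun _ => rfl
  have hRr : ∀ σ, (R σ).r = (φ σ, φ' σ) := fun _ => rfl
  have hRft : H38.ML.FT R := by
    obtain ⟨F', hF', h2⟩ := ft_prod hR₀ft (kc_ft (Ω := Ω) hp hζ x)
    refine ⟨F', hF', fun u hu => ?_⟩
    have h3 : (R₀.prod (kc p ζ Ω x)) u = 1 := MonoidHom.mem_ker.1 (h2 hu)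
    have h4 : R₀ u = 1 := congrArg Prod.fst h3
    have h5 : kk p ζ x u = 0 := congrArg (fun y => Multiplicative.toAdd y.2) h3
    have h6 : (R₀ u).r = 1 := congrArg Xt.r h4
    have h7 : (R₀ u).z = 0 := congrArg Xt.z h4
    rw [MonoidHom.mem_ker, Xt.ext_iff]
    refine ⟨h6, ?_⟩
    rw [hRz, h5, sub_zero]
    exact h7
  have hRt : ∀ v, v ∉ D.S0 → (R (L.t v)).z = 0 := fun v hv => by
    rw [hRz, hxt v hv, sub_self]
  have hR1 : (R 1).z = 0 := by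
    rw [hRz, hl0, hk1, sub_zero]
  have hRm : ∀ σ τ, (R (σ * τ)).z = (R σ).z + (R τ).z + e2 ν (φ σ, φ' σ) (φ τ, φ' τ) := by
    intro σ τ
    rw [map_mul]
    rfl
  by_cases hex : ∃ w₀, D.Gd w₀ ∧ D.q w₀ = c
  swap
  · exact ⟨R, 0, hRft, hRr, hRt, fun u hu hq => absurd ⟨u, hu, hq⟩ hex⟩
  obtain ⟨w₀, hw₀, hq₀⟩ := hex
  refine ⟨R, JJ I w φ₁ (tw E ρ (kc p ζ Ω (D.pi w₀))) - JJ I w φ₁ (tw E ρ' (kc p ζ Ω (D.pi w₀))) -
    ZMod.toAddCircle (θ (R (Fr.F w₀)).z), hRft, hRr, hRt, fun u hu hq => ?_⟩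
  by_cases huw : u = w₀
  · rw [huw, sub_add_cancel]
  -- the difference
  set y : Kˣ := D.pi u * (D.pi w₀)⁻¹ with hy
  have hyk : ∀ σ : Gal(Ω/K), kk p ζ y σ = kk p ζ (D.pi u) σ - kk p ζ (D.pi w₀) σ := by
    intro σ
    rw [hy, ← zpow_neg_one (D.pi w₀), kk_mul_arg hp hζ, kk_zpow_arg hp hζ, Int.cast_neg,
      Int.cast_one, neg_one_mul, sub_eq_add_neg]
  let Ψ : Gal(Ω/K) → Gal(Ω/K) → ZMod (p ^ m) := fun σ τ => θ ((R σ).z * kk p ζ y τ)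
  have hd : ∀ σ τ υ, d2 Ψ σ τ υ = -θ (e2 ν (φ σ, φ' σ) (φ τ, φ' τ) * kk p ζ y υ) := by
    intro σ τ υ
    show θ ((R τ).z * kk p ζ y υ) - θ ((R (σ * τ)).z * kk p ζ y υ) +
      θ ((R σ).z * kk p ζ y (τ * υ)) - θ ((R σ).z * kk p ζ y τ) = _
    rw [hRm, hkm, ← map_sub, ← map_add, ← map_sub, ← map_neg]
    congr 1
    ring
  have e1 : ∀ (ρ : Gal(Ω/K) →* G) (φ : Gal(Ω/K) →* H), E.pi.comp ρ = φ → ∀ σ τ υ,
      w (tw E ρ (kc p ζ Ω (D.pi u)) σ) (tw E ρ (kc p ζ Ω (D.pi u)) τ)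
        (tw E ρ (kc p ζ Ω (D.pi u)) υ) -
      w (tw E ρ (kc p ζ Ω (D.pi w₀)) σ) (tw E ρ (kc p ζ Ω (D.pi w₀)) τ)
        (tw E ρ (kc p ζ Ω (D.pi w₀)) υ) = θ (ν (φ σ) (φ τ) * kk p ζ y υ) := by
    intro ρ φ hρφ σ τ υ
    have h1 : ∀ (v : Pl K) (σ : Gal(Ω/K)), E.pi (tw E ρ (kc p ζ Ω (D.pi v)) σ) = φ σ := by
      intro v σ
      rw [← hρφ]
      exact DFunLike.congr_fun (tw_pi E ρ (kc p ζ Ω (D.pi v))) σ
    have h2 : ∀ (v : Pl K) (σ : Gal(Ω/K)), E.et (tw E ρ (kc p ζ Ω (D.pi v)) σ) =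
        kk p ζ (D.pi v) σ + E.et (ρ σ) := by
      intro v σ
      rw [tw_apply, E.et_i, kk_kc]
    rw [hw, hw, h1, h1, h1, h1, h1, h1, h2, h2, add_sub_add_left_eq_sub, ← map_sub, hyk]
    congr 1
    ring
  have e2' : (JJ I w φ₁ (tw E ρ (kc p ζ Ω (D.pi u))) -
      JJ I w φ₁ (tw E ρ' (kc p ζ Ω (D.pi u)))) -
      (JJ I w φ₁ (tw E ρ (kc p ζ Ω (D.pi w₀))) -
      JJ I w φ₁ (tw E ρ' (kc p ζ Ω (D.pi w₀)))) = -I (d2 Ψ) := by
    unfold Pool.Agent.H19.AB.JJ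
    rw [← map_sub, ← map_sub, ← map_sub, ← map_neg]
    congr 1
    funext σ τ υ
    have h1 := e1 ρ φ hR.pi σ τ υ
    have h2 := e1 ρ' φ' hR'.pi σ τ υ
    simp only [Pi.sub_apply, Pi.neg_apply]
    rw [hd, neg_neg]
    unfold pl3
    have h3 : θ (e2 ν (φ σ, φ' σ) (φ τ, φ' τ) * kk p ζ y υ) =
        θ (ν (φ σ) (φ τ) * kk p ζ y υ) - θ (ν (φ' σ) (φ' τ) * kk p ζ y υ) := by
      rw [← map_sub]
      unfold e2
      congr 1
      ring
    rw [h3, ← h1, ← h2]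
    ring
  have hm1 : ∀ x : Multiplicative (ZMod p), x ^ p = 1 := by
    intro x
    apply Multiplicative.toAdd.injective
    rw [toAdd_pow, toAdd_one, nsmul_eq_mul, CharP.cast_eq_zero, zero_mul]
  have hXf : Finite (Xt (e2 ν) he) := xt_fin _ _
  have hL : LfT L Ψ := by
    refine ⟨Xt (e2 ν) he × Multiplicative (ZMod p), inferInstance, inferInstance,
      R.prod (kc p ζ Ω y), fun a b => θ (a.1.z * Multiplicative.toAdd b.2), fun v _ τ _ => ?_,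
      ft_prod hRft (kc_ft hp hζ y), fun r => ?_, fun r => ?_, fun σ τ => rfl⟩
    · exact Prod.ext (xt_exp hp he (fun r => Prod.ext (hH _) (hH _)) (e2_pw hpw) _) (hm1 _)
    · show θ ((1 : Xt (e2 ν) he).z * _) = 0
      have : (1 : Xt (e2 ν) he).z = 0 := rfl
      rw [this, zero_mul, map_zero]
    · show θ (r.1.z * Multiplicative.toAdd (1 : Multiplicative (ZMod p))) = 0
      rw [toAdd_one, mul_zero, map_zero]
  have hrel : Rel D Q Ψ := by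
    intro v hv σ _ τ hτ
    show θ ((R σ).z * kk p ζ y τ) = 0
    have h1 := hR.teqw hu.1 hq v hv τ hτ
    have h2 := hR.teqw hw₀.1 hq₀ v hv τ hτ
    rw [tw_apply] at h1 h2
    have h3 : E.i (kk p ζ (D.pi u) τ) * ρ τ = E.i (kk p ζ (D.pi w₀) τ) * ρ τ := h1.trans h2.symm
    rw [mul_left_inj] at h3
    rw [hyk, i_inj E h3, sub_self, mul_zero, map_zero]
  have hyt : ∀ v, v ∉ D.S0 → kk p ζ y (L.t v) =
      (if v = u then 1 else 0) - (if v = w₀ then 1 else 0) := by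
    intro v hv
    rw [hyk]
    congr 1
    · by_cases h1 : v = u
      · rw [if_pos h1, (kk_pi hp hζ D L u v hu.1 hv).1 h1.symm]
      · rw [if_neg h1, (kk_pi hp hζ D L u v hu.1 hv).2 (fun h => h1 h.symm)]
    · by_cases h1 : v = w₀
      · rw [if_pos h1, (kk_pi hp hζ D L w₀ v hw₀.1 hv).1 h1.symm]
      · rw [if_neg h1, (kk_pi hp hζ D L w₀ v hw₀.1 hv).2 (fun h => h1 h.symm)]
  have hTS : TS L Fr lam Ψ = -θ (R (Fr.F u)).z + θ (R (Fr.F w₀)).z := by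
    rw [ts_sum L Fr lam {u, w₀}]
    · rw [Finset.sum_pair huw, hone u hu, hone w₀ hw₀]
      have : Fact (1 < p) := ⟨hp.one_lt⟩
      rw [ZMod.val_one, one_smul, one_smul]
      congr 1
      · show θ ((R (L.t u)).z * kk p ζ y (Fr.F u)) - θ ((R (Fr.F u)).z * kk p ζ y (L.t u)) = _
        rw [hRt u hu.1, zero_mul, map_zero, zero_sub, hyt u hu.1, if_pos rfl, if_neg huw, sub_zero,
          mul_one]
      · show θ ((R (L.t w₀)).z * kk p ζ y (Fr.F w₀)) - θ ((R (Fr.F w₀)).z * kk p ζ y (L.t w₀)) = _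
        rw [hRt w₀ hw₀.1, zero_mul, map_zero, zero_sub, hyt w₀ hw₀.1, if_neg (Ne.symm huw),
          if_pos rfl, zero_sub, mul_neg, mul_one, map_neg, neg_neg]
    · intro v hv
      rw [Finset.mem_insert, Finset.mem_singleton, not_or] at hv
      show θ ((R (L.t v)).z * kk p ζ y (Fr.F v)) - θ ((R (Fr.F v)).z * kk p ζ y (L.t v)) = 0
      by_cases hS : v ∈ D.S0
      · rw [t_S0 L hS, hR1, hk1, zero_mul, mul_zero, sub_self]
      · rw [hRt v hS, hyt v hS, if_neg hv.1, if_neg hv.2, sub_self, zero_mul, mul_zero, sub_self]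
  rw [hI Ψ hL hrel, hTS, map_add, map_neg] at e2'
  have h5 : ∀ a b c d : AddCircle (1 : ℝ), a - b = -(-c + d) → a = b - d + c := by
    intro a b c d h
    rw [sub_eq_iff_eq_add] at h
    rw [h]
    abel
  exact h5 _ _ _ _ e2'

end Pool.Agent.H19.ST
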