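import Pool.Agent.H19.ST.Tz
import Pool.Agent.H19.AB.Bet
import Pool.Agent.H77.WD.Gs

/-!
# [H19 ST FIB] the homomorphisms ramified at one more prime, with the central value

`mem_xs`, `mem_hs`. `sv E L φ' T a`: the values `E.i (a v) * E.s (φ' t_v)` for `v ∈ T`, `1` outside.
`fib`: the `φ ∈ XS (T ∪ {u})` with `φ t_u = E.i 1` correspond to the `φ' ∈ XS T` (for `H`) with `br ee (φ' t_v) (φ' F_v) = 0` for `v ∈ T` and the
`a : T → ZMod p` with `q u = cR φ' a`: `φ = tw E (ρR φ' a) (kc (pi u))` (`lr_ex` of H19/AB/Mf).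
Proof: from left to right `φ' = E.pi ∘ φ` (unramified at `u`), `a v = et (φ t_v)`; `φ t_v`, `φ F_v` commute (`Fr.com`), so `br ee = 0`
(`E.et_mul`); the last part of `lr_ex` gives `q u = c`, `φ = tw ..`. From right to left: `LR`.
-/

set_option autoImplicit false
set_option linter.dupNamespace false

open scoped NumberField ComplexConjugate
open IsDedekindDomain
open scoped Classical

noncomputable section

namespace Pool.Agent.H19.ST

open H63.MA H38.BB H38.BG H57.PC H57.BRA H57.GP H77.PC3 H77.WD Pool.Agent.H19.NF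
  Pool.Agent.H19.AB H86.AP

variable {K : Type} [Field K] [NumberField K] {Ω : Type} [Field Ω] [Algebra K Ω]
  [IsAlgClosure K Ω] {p : ℕ} {ζ : K} {G H : Type} [Group G] [Group H]

private theorem fib_fin (hp : p.Prime) (hζ : IsPrimitiveRoot ζ p) {D : RD0 K p ζ} (L : LDs D Ω)
    [Finite G] (hG : ∀ x : G, x ^ p = 1) (T : Finset (Pl K)) :
    {φ : Gal(Ω/K) →* G | Hon L T φ}.Finite := by
  obtain ⟨A⟩ := gs_exists hp hζ D Ω
  refine (hon_fin hp hζ L A T G).subset fun φ h => ⟨h, ?_⟩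
  rintro ⟨x, hx⟩
  refine ⟨1, Subtype.ext ?_⟩
  show x ^ (p ^ 1) = 1
  rw [pow_one, hG x]

theorem mem_xs (hp : p.Prime) (hζ : IsPrimitiveRoot ζ p) {D : RD0 K p ζ} (L : LDs D Ω)
    (Q : DP K Ω) [Finite G] (hG : ∀ x : G, x ^ p = 1) (φ₁ : Gal(Ω/K) →* G) (T : Finset (Pl K))
    (φ : Gal(Ω/K) →* G) : φ ∈ XS L Q φ₁ T ↔ Hon L T φ ∧ Teq D.S0 Q φ φ₁ := by
  have hfin : (XT L Q φ₁ T).Finite := (fib_fin hp hζ L hG T).subset fun φ h => h.1
  unfold XS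
  rw [dif_pos hfin, Set.Finite.mem_toFinset]
  rfl

theorem mem_hs (hp : p.Prime) (hζ : IsPrimitiveRoot ζ p) {D : RD0 K p ζ} (L : LDs D Ω)
    [Finite G] (hG : ∀ x : G, x ^ p = 1) (T : Finset (Pl K))
    (φ : Gal(Ω/K) →* G) : φ ∈ HS L G T ↔ Hon L T φ := by
  have hfin := fib_fin hp hζ L hG T
  unfold HS
  rw [dif_pos hfin, Set.Finite.mem_toFinset]
  rfl

/-- the values at the `t_v` -/
def sv (E : CE p G H) {D : RD0 K p ζ} (L : LDs D Ω) (φ' : Gal(Ω/K) →* H) (T : Finset (Pl K))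
    (a : T → ZMod p) (v : Pl K) : G :=
  if h : v ∈ T then E.i (a ⟨v, h⟩) * E.s (φ' (L.t v)) else 1

/-- the condition for lifts -/
def Lc (E : CE p G H) {D : RD0 K p ζ} (L : LDs D Ω) (Fr : FR L) (T : Finset (Pl K))
    (φ' : Gal(Ω/K) →* H) : Prop := ∀ v ∈ T, br E.ee (φ' (L.t v)) (φ' (Fr.F v)) = 0

theorem fib [NeZero p] (E : CE p G H) (hp : p.Prime) (hp2 : MOne p K) (hζ : IsPrimitiveRoot ζ p)
    (hz : Z2 p K) {D : RD0 K p ζ} (L : LDs D Ω) (Q : DP K Ω) (Fr : FR L) [Finite G]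
    (hG : ∀ x : G, x ^ p = 1) (φ₁ : Gal(Ω/K) →* G) (h₁ : H38.ML.FT φ₁) (T : Finset (Pl K))
    (hT : ∀ v ∈ T, v ∉ D.S0) :
    ∃ (cR : (Gal(Ω/K) →* H) → (T → ZMod p) → Fin D.r → ZMod p)
      (ρR : (Gal(Ω/K) →* H) → (T → ZMod p) → (Gal(Ω/K) →* G)),
      (∀ φ' ∈ XS L Q (E.pi.comp φ₁) T, Lc E L Fr T φ' → ∀ a,
        LR E L Q φ₁ φ' (sv E L φ' T a) (cR φ' a) (ρR φ' a)) ∧
      ∀ u, u ∉ D.S0 → u ∉ T → ∀ X : (Gal(Ω/K) →* G) → ℂ,
        (∀ φ ∈ XS L Q φ₁ (insert u T), X φ ≠ 0 → φ (L.t u) = E.i 1) →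
        ∑ φ ∈ XS L Q φ₁ (insert u T), X φ =
          ∑ φ' ∈ XS L Q (E.pi.comp φ₁) T, ∑ a : T → ZMod p,
            if Lc E L Fr T φ' ∧ D.q u = cR φ' a then
              X (tw E (ρR φ' a) (kc p ζ Ω (D.pi u))) else 0 := by
  have hFH : Finite H := fin_H E
  have hH : ∀ x : H, x ^ p = 1 := exp_H E hG
  have key : ∀ (φ' : Gal(Ω/K) →* H), φ' ∈ XS L Q (E.pi.comp φ₁) T → Lc E L Fr T φ' →
      ∀ a : T → ZMod p,
      ∃ (c : Fin D.r → ZMod p) (ρ : Gal(Ω/K) →* G), LR E L Q φ₁ φ' (sv E L φ' T a) c ρ ∧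
      ∀ w, w ∉ D.S0 → w ∉ T → ∀ φ : Gal(Ω/K) →* G, H38.ML.FT φ → E.pi.comp φ = φ' →
        (∀ v, v ∉ D.S0 → v ≠ w → φ (L.t v) = sv E L φ' T a v) → φ (L.t w) = E.i 1 →
          Teq D.S0 Q φ φ₁ → D.q w = c ∧ φ = tw E ρ (kc p ζ Ω (D.pi w)) := by
    intro φ' hφ' hLc a
    rw [mem_xs hp hζ L Q hH] at hφ'
    obtain ⟨⟨h1, h2⟩, h3⟩ := hφ'
    refine lr_ex E hp hp2 hζ hz Q Fr h₁ h1 (tme_exp hH φ') h3 T _ ?_ ?_ hLc
    · intro v hv
      unfold sv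
      split_ifs with h
      · rw [E.pi_mul, E.pi_s]
      · rw [map_one, (h2 v hv).2 h]
    · intro v hv hvT
      unfold sv
      rw [dif_neg hvT]
  choose c0 ρ0 hLR huni using key
  set cR : (Gal(Ω/K) →* H) → (T → ZMod p) → Fin D.r → ZMod p := fun φ' a =>
    if h : φ' ∈ XS L Q (E.pi.comp φ₁) T ∧ Lc E L Fr T φ' then c0 φ' h.1 h.2 a else 0 with hcR
  set ρR : (Gal(Ω/K) →* H) → (T → ZMod p) → (Gal(Ω/K) →* G) := fun φ' a =>
    if h : φ' ∈ XS L Q (E.pi.comp φ₁) T ∧ Lc E L Fr T φ' then ρ0 φ' h.1 h.2 a else 1 with hρR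
  have ec : ∀ φ' (h1 : φ' ∈ XS L Q (E.pi.comp φ₁) T) (h2 : Lc E L Fr T φ') a,
      cR φ' a = c0 φ' h1 h2 a := fun φ' h1 h2 a => by
    rw [hcR]
    exact dif_pos ⟨h1, h2⟩
  have er : ∀ φ' (h1 : φ' ∈ XS L Q (E.pi.comp φ₁) T) (h2 : Lc E L Fr T φ') a,
      ρR φ' a = ρ0 φ' h1 h2 a := fun φ' h1 h2 a => by
    rw [hρR]
    exact dif_pos ⟨h1, h2⟩
  refine ⟨cR, ρR, ?_, ?_⟩
  · intro φ' h1 h2 a
    rw [ec φ' h1 h2, er φ' h1 h2]
    exact hLR φ' h1 h2 a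
  · intro u hu huT X hX
    rw [← Finset.sum_filter_of_ne hX, ← Finset.sum_product' (f := fun φ' a =>
      if Lc E L Fr T φ' ∧ D.q u = cR φ' a then
              X (tw E (ρR φ' a) (kc p ζ Ω (D.pi u))) else 0), ← Finset.sum_filter]
    symm
    have hi1 : E.pi (E.i 1) = 1 := E.pi_i 1
    refine Finset.sum_bij (fun y _ => tw E (ρR y.1 y.2) (kc p ζ Ω (D.pi u))) ?_ ?_ ?_ ?_
    · rintro ⟨φ', a⟩ hy
      rw [Finset.mem_filter, Finset.mem_product] at hy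
      obtain ⟨⟨h1, -⟩, h2, h3⟩ := hy
      dsimp only at h1 h2 h3 ⊢
      rw [ec φ' h1 h2] at h3
      rw [er φ' h1 h2]
      have hlr := hLR φ' h1 h2 a
      rw [Finset.mem_filter, mem_xs hp hζ L Q hG]
      refine ⟨⟨⟨tw_ft E hlr.ft (kc_ft hp hζ _), fun v hv => ⟨hG _, fun hvT => ?_⟩⟩,
        hlr.teqw hu h3⟩, ?_⟩
      · rw [Finset.mem_insert, not_or] at hvT
        rw [lr_t E hp hζ hlr hu hv, if_neg hvT.1]
        unfold sv
        rw [dif_neg hvT.2]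
      · rw [lr_t E hp hζ hlr hu hu, if_pos rfl]
        unfold sv
        rw [dif_neg huT, mul_one]
    · rintro ⟨φ', a⟩ hy ⟨φ'', a'⟩ hy' he
      rw [Finset.mem_filter, Finset.mem_product] at hy hy'
      obtain ⟨⟨h1, -⟩, h2, h3⟩ := hy
      obtain ⟨⟨h1', -⟩, h2', h3'⟩ := hy'
      dsimp only at h1 h2 h3 h1' h2' h3' he
      rw [er φ' h1 h2, er φ'' h1' h2'] at he
      have hlr := hLR φ' h1 h2 a
      have hlr' := hLR φ'' h1' h2' a'
      have e1 : φ' = φ'' := by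
        rw [← lr_pi E hlr (kc p ζ Ω (D.pi u)), he, lr_pi E hlr']
      subst e1
      have e2 : a = a' := by
        funext v
        have hv : v.1 ∉ D.S0 := hT v.1 v.2
        have hvu : v.1 ≠ u := fun h => huT (h ▸ v.2)
        have h4 := DFunLike.congr_fun he (L.t v.1)
        rw [lr_t E hp hζ hlr hu hv, lr_t E hp hζ hlr' hu hv, if_neg hvu, if_neg hvu] at h4
        unfold sv at h4
        rw [dif_pos v.2, dif_pos v.2] at h4
        exact i_inj E (mul_right_cancel h4)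
      rw [e2]
    · intro φ hφ
      rw [Finset.mem_filter, mem_xs hp hζ L Q hG] at hφ
      obtain ⟨⟨⟨h1, h2⟩, h3⟩, h4⟩ := hφ
      have hm : E.pi.comp φ ∈ XS L Q (E.pi.comp φ₁) T := by
        rw [mem_xs hp hζ L Q hH]
        refine ⟨⟨H38.ML.ft_comp _ _ h1, fun v hv => ⟨hH _, fun hvT => ?_⟩⟩, fun v hv σ hσ => ?_⟩
        · rw [MonoidHom.comp_apply]
          by_cases hvu : v = u
          · rw [hvu, h4, hi1]
          · rw [(h2 v hv).2 (by rw [Finset.mem_insert, not_or]; exact ⟨hvu, hvT⟩), map_one]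
        · rw [MonoidHom.comp_apply, MonoidHom.comp_apply, h3 v hv σ hσ]
      have hL : Lc E L Fr T (E.pi.comp φ) := by
        intro v hvT
        have h5 := Fr.com v (hT v hvT) G φ h1 fun τ _ => hG _
        unfold br
        rw [MonoidHom.comp_apply, MonoidHom.comp_apply, ← E.d1_et, ← E.d1_et]
        unfold d1
        rw [h5]
        ring
      have hsv : ∀ v, v ∉ D.S0 → v ≠ u → φ (L.t v) =
          sv E L (E.pi.comp φ) T (fun v => E.et (φ (L.t v.1))) v := by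
        intro v hv hvu
        unfold sv
        by_cases hvT : v ∈ T
        · rw [dif_pos hvT]
          exact E.dec _
        · rw [dif_neg hvT, (h2 v hv).2 (by rw [Finset.mem_insert, not_or]; exact ⟨hvu, hvT⟩)]
      obtain ⟨h6, h7⟩ := huni (E.pi.comp φ) hm hL (fun v => E.et (φ (L.t v.1))) u hu huT φ h1 rfl
        hsv h4 h3
      refine ⟨(E.pi.comp φ, fun v => E.et (φ (L.t v.1))), ?_, ?_⟩
      · rw [Finset.mem_filter, Finset.mem_product]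
        refine ⟨⟨hm, Finset.mem_univ _⟩, hL, ?_⟩
        dsimp only
        rw [ec _ hm hL]
        exact h6
      · dsimp only
        rw [er _ hm hL]
        exact h7.symm
    · intro y _
      rfl

/-- the homomorphisms with trivial value at one more prime -/
theorem xs_triv (hp : p.Prime) (hζ : IsPrimitiveRoot ζ p) {D : RD0 K p ζ} (L : LDs D Ω)
    (Q : DP K Ω) [Finite G] (hG : ∀ x : G, x ^ p = 1) (φ₁ : Gal(Ω/K) →* G) (T : Finset (Pl K))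
    {u : Pl K} (hu : u ∉ D.S0) (X : (Gal(Ω/K) →* G) → ℂ)
    (hX : ∀ φ ∈ XS L Q φ₁ (insert u T), X φ ≠ 0 → φ (L.t u) = 1) :
    ∑ φ ∈ XS L Q φ₁ (insert u T), X φ = ∑ φ ∈ XS L Q φ₁ T, X φ := by
  symm
  refine Finset.sum_subset (fun φ hφ => ?_) fun φ hφ hφ' => ?_
  · rw [mem_xs hp hζ L Q hG] at hφ ⊢
    refine ⟨⟨hφ.1.1, fun v hv => ⟨hG _, fun hvT => ?_⟩⟩, hφ.2⟩
    exact (hφ.1.2 v hv).2 fun h => hvT (Finset.mem_insert_of_mem h)
  · by_contra h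
    have h1 := hX φ hφ h
    apply hφ'
    rw [mem_xs hp hζ L Q hG] at hφ ⊢
    refine ⟨⟨hφ.1.1, fun v hv => ⟨hG _, fun hvT => ?_⟩⟩, hφ.2⟩
    by_cases hvu : v = u
    · rw [hvu, h1]
    · exact (hφ.1.2 v hv).2 (by rw [Finset.mem_insert, not_or]; exact ⟨hvu, hvT⟩)

end Pool.Agent.H19.ST
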