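import Pool.Agent.H19.ST.Chg
import Pool.Agent.H19.ST.Grp

/-!
# [H19 ST EXQ] the sum BB over T and a new prime u

State `(b, w)`, `w = κ ∘ π + θ (ν ∪ et)` (`ν = 0` in the main case). `V2 E q b t x = Vg q b t (E.i 1) (E.s x)`: the weight at the new prime. `exq`: `BB (T ∪ {u})` as the sum over
`φ' ∈ XS T` (homomorphisms to `H`) and `a : T → ZMod p`.
-/

set_option autoImplicit false
set_option linter.dupNamespace false

open scoped NumberField ComplexConjugate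
open IsDedekindDomain
open scoped Classical

noncomputable section

namespace Pool.Agent.H19.ST

open H63.MA H38.BG H57.PC H57.BRA H57.GP H77.PC3 H77.WD Pool.Agent.H19.NF
  Pool.Agent.H19.AB H86.AP H4.AP

variable {K : Type} [Field K] [NumberField K] {Ω : Type} [Field Ω] [Algebra K Ω]
  [IsAlgClosure K Ω] {p m : ℕ} {ζ : K} {P G H : Type} [Group P] [Fintype P] [Group G]
  [Group H]

/-- the weight at the new prime -/
def V2 [NeZero (p ^ m)] (E : CE p G H) (q : P →* G) (b : P → P → ZMod (p ^ m)) (t : P) (x : H) :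
    ℂ := Vg q b t (E.i 1) (E.s x)

omit [Group P] [Fintype P] in
/-- the weights of the reciprocity law -/
theorem lam_b (hp : p.Prime) {l : ZMod p} (hl : l = 1) (b : P → P → ZMod (p ^ m)) :
    (fun x y => l.val • b x y) = b := by
  have : Fact (1 < p) := ⟨hp.one_lt⟩
  funext x y
  rw [hl, ZMod.val_one, one_smul]

theorem v2_eq [NeZero (p ^ m)] (E : CE p G H) (q : P →* G) {b : P → P → ZMod (p ^ m)}
    {w : G → G → G → ZMod (p ^ m)} {κ : H → H → H → ZMod (p ^ m)} {ν : H → H → ZMod p}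
    {θ : ZMod p →+ ZMod (p ^ m)} (hb : ∀ x y z, d2 b x y z = w (q x) (q y) (q z))
    (hw : ∀ x y z, w x y z = κ (E.pi x) (E.pi y) (E.pi z) +
      θ (ν (E.pi x) (E.pi y) * E.et z)) (hκ : Nr3 κ) (hν : Nr2 ν) (t : P) (x : G) :
    Vg q b t (E.i 1) x = V2 E q b t (E.pi x) := by
  conv_lhs => rw [E.dec x]
  exact vb_j0i q E hb hκ hν hw t _ _

/-- the value at one prime: the function of `x ∈ G` at `v ∈ T` -/
def gw [NeZero (p ^ m)] (E : CE p G H) (q : P →* G) (b : P → P → ZMod (p ^ m)) {D : RD0 K p ζ}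
    (L : LDs D Ω) (lam : Pl K → ZMod p) (γ : Pl K → P) (φ' : Gal(Ω/K) →* H) (T : Finset (Pl K))
    (a : T → ZMod p) (v : Pl K) (x : G) : ℂ :=
  Vg q (fun x y => (lam v).val • b x y) (γ v) (sv E L φ' T a v) x

theorem exq [NeZero p] [NeZero (p ^ m)] [Finite G] (E : CE p G H) (hp : p.Prime)
    (hp2 : MOne p K) (hζ : IsPrimitiveRoot ζ p) (hz : Z2 p K) (D : RD0 K p ζ)
    (L : LDs D Ω) (Q : DP K Ω) (Fr : FR L) {lam : Pl K → ZMod p}
    (hone : ∀ v, D.Gd v → lam v = 1)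
    (I : (Gal(Ω/K) → Gal(Ω/K) → Gal(Ω/K) → ZMod (p ^ m)) →+ AddCircle (1 : ℝ))
    (hP : ∀ x : P, x ^ p = 1) (φ₁ : Gal(Ω/K) →* P) (h₁ : H38.ML.FT φ₁)
    (q : P →* G) (hq : Function.Surjective q) {t : P} (hj : q t = E.i 1)
    {b : P → P → ZMod (p ^ m)} {w : G → G → G → ZMod (p ^ m)}
    {κ : H → H → H → ZMod (p ^ m)} {ν : H → H → ZMod p} {θ : ZMod p →+ ZMod (p ^ m)}
    (hb : ∀ x y z, d2 b x y z = w (q x) (q y) (q z))
    (hw : ∀ x y z, w x y z = κ (E.pi x) (E.pi y) (E.pi z) +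
      θ (ν (E.pi x) (E.pi y) * E.et z)) (hκ : Nr3 κ) (hν : Nr2 ν)
    (T : Finset (Pl K)) (hT : ∀ v ∈ T, v ∉ D.S0) :
    ∃ (cR : (Gal(Ω/K) →* H) → (T → ZMod p) → Fin D.r → ZMod p)
      (ρR : (Gal(Ω/K) →* H) → (T → ZMod p) → (Gal(Ω/K) →* G)),
      (∀ φ' ∈ XS L Q (E.pi.comp (q.comp φ₁)) T, Lc E L Fr T φ' → ∀ a,
        LR E L Q (q.comp φ₁) φ' (sv E L φ' T a) (cR φ' a) (ρR φ' a)) ∧
      ∀ (γ : Pl K → P) (u : Pl K), D.Gd u → u ∉ T →
        BB L Q Fr lam I φ₁ q b w (insert u T) (Function.update γ u t) =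
          ∑ φ' ∈ XS L Q (E.pi.comp (q.comp φ₁)) T, ∑ a : T → ZMod p,
            if Lc E L Fr T φ' ∧ D.q u = cR φ' a then
              ec (Jf I w (tw E (ρR φ' a) (kc p ζ Ω (D.pi u))) (q.comp φ₁)) *
                V2 E q b t (φ' (Fr.F u)) *
                ∏ v ∈ T, gw E q b L lam γ φ' T a v
                  (tw E (ρR φ' a) (kc p ζ Ω (D.pi u)) (Fr.F v)) else 0 := by
  have hG : ∀ x : G, x ^ p = 1 := by
    intro x
    obtain ⟨y, rfl⟩ := hq x
    rw [← map_pow, hP, map_one]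
  have hft : H38.ML.FT (q.comp φ₁) := by
    obtain ⟨F, hF, h1⟩ := h₁
    refine ⟨F, hF, fun u hu => ?_⟩
    rw [MonoidHom.mem_ker, MonoidHom.comp_apply, MonoidHom.mem_ker.1 (h1 hu), map_one]
  obtain ⟨cR, ρR, hLR, hfib⟩ := fib E hp hp2 hζ hz L Q Fr hG (q.comp φ₁) hft T hT
  refine ⟨cR, ρR, hLR, fun γ u hu huT => ?_⟩
  have hcent : ∀ g : P, q g * E.i 1 = E.i 1 * q g := fun g => (E.cent 1 (q g)).symm
  unfold H86.AP.BB
  rw [hfib u hu.1 huT _ fun φ hφ hne => ?_]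
  · refine Finset.sum_congr rfl fun φ' hφ' => Finset.sum_congr rfl fun a _ => ?_
    by_cases hc : Lc E L Fr T φ' ∧ D.q u = cR φ' a
    · rw [if_pos hc, if_pos hc, mul_assoc]
      congr 1
      have hR := hLR φ' hφ' hc.1 a
      rw [Finset.prod_insert huT]
      congr 1
      · rw [Function.update_self, lam_b hp (hone u hu), lr_t E hp hζ hR hu.1 hu.1, if_pos rfl]
        have e1 : sv E L φ' T a u = 1 := dif_neg huT
        rw [e1, mul_one, v2_eq E q hb hw hκ hν]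
        congr 1
        exact DFunLike.congr_fun (lr_pi E hR (kc p ζ Ω (D.pi u))) (Fr.F u)
      · refine Finset.prod_congr rfl fun v hv => ?_
        have hvu : v ≠ u := fun h => huT (h ▸ hv)
        rw [Function.update_of_ne hvu, lr_t E hp hζ hR hu.1 (hT v hv), if_neg hvu]
        rfl
    · rw [if_neg hc, if_neg hc]
  · have h1 : Vg q (fun x y => (lam u).val • b x y) (Function.update γ u t u) (φ (L.t u))
        (φ (Fr.F u)) ≠ 0 :=
      Finset.prod_ne_zero_iff.1 (right_ne_zero_of_mul hne) u (Finset.mem_insert_self u T)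
    rw [Function.update_self] at h1
    exact vb_j0 q hcent hj h1

end Pool.Agent.H19.ST
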