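import Pool.Agent.H19.ST.Exq
import Pool.Agent.H19.ST.Cau

/-!
# [H19 ST COF] coefficients, and the class function of the negligible case

* `co_fib`, `co_bd`: the coefficients of a combination of values `F (f x j)` as a function of `Θ = f x j`, and their size.
* `v2_conj`: `V2 (g x g⁻¹) = V2 x * ch p (-(ν g x - ν (g x g⁻¹) g))`. `Fn`: the function on the extension, `fn_cz` (class function), `fn_cent`.
* `Rx`: the twist of a homomorphism to the extension by a character.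
* `gw_ne`: the consequences of `gw ≠ 0`.
-/

set_option autoImplicit false
set_option linter.dupNamespace false

open scoped NumberField ComplexConjugate
open IsDedekindDomain
open scoped Classical

noncomputable section

namespace Pool.Agent.H19.ST

open H63.MA H38.BG H57.PC H57.BRA H57.GP H77.PC3 H77.WD Pool.Agent.H19.NF
  Pool.Agent.H19.AB H86.AP H4.AP

theorem co_fib {A J X : Type} [Fintype J] (S : Finset A) (Z : Finset X) (f : A → J → X)
    (c : A → J → ℂ) (F : X → ℂ) (hmem : ∀ x ∈ S, ∀ j, c x j ≠ 0 → f x j ∈ Z) :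
    ∑ Θ ∈ Z, (∑ x ∈ S, ∑ j, if f x j = Θ then c x j else 0) * F Θ =
      ∑ x ∈ S, ∑ j, c x j * F (f x j) := by
  have e1 : ∀ Θ ∈ Z, (∑ x ∈ S, ∑ j, if f x j = Θ then c x j else 0) * F Θ =
      ∑ x ∈ S, ∑ j, if f x j = Θ then c x j * F Θ else 0 := by
    intro Θ _
    rw [Finset.sum_mul]
    refine Finset.sum_congr rfl fun x _ => ?_
    rw [Finset.sum_mul]
    refine Finset.sum_congr rfl fun j _ => ?_
    rw [ite_mul, zero_mul]
  rw [Finset.sum_congr rfl e1, Finset.sum_comm]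
  refine Finset.sum_congr rfl fun x hx => ?_
  rw [Finset.sum_comm]
  refine Finset.sum_congr rfl fun j _ => ?_
  rw [Finset.sum_ite_eq Z (f x j) fun Θ => c x j * F Θ]
  by_cases h : f x j ∈ Z
  · rw [if_pos h]
  · rw [if_neg h]
    have h0 : c x j = 0 := by
      by_contra h'
      exact h (hmem x hx j h')
    rw [h0, zero_mul]

theorem co_bd {A J X : Type} [Fintype J] (S : Finset A) (f : A → J → X)
    (c : A → J → ℂ) (hinj : ∀ x ∈ S, ∀ y ∈ S, ∀ j j', f x j = f y j' → c x j ≠ 0 →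
      c y j' ≠ 0 → x = y) {M : ℝ} (hM : 0 ≤ M) (hc : ∀ x ∈ S, ∀ j, ‖c x j‖ ≤ M) (Θ : X) :
    ‖∑ x ∈ S, ∑ j, if f x j = Θ then c x j else 0‖ ≤ Fintype.card J * M := by
  by_cases h : ∃ x ∈ S, ∃ j, f x j = Θ ∧ c x j ≠ 0
  · obtain ⟨x₀, hx₀, j₀, h1, h2⟩ := h
    rw [Finset.sum_eq_single_of_mem x₀ hx₀]
    · refine (norm_sum_le _ _).trans ?_
      have h3 : ∀ j ∈ (Finset.univ : Finset J), ‖(if f x₀ j = Θ then c x₀ j else 0 : ℂ)‖ ≤ M := by
        intro j _
        split_ifs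
        · exact hc x₀ hx₀ j
        · rw [norm_zero]
          exact hM
      refine (Finset.sum_le_sum h3).trans (le_of_eq ?_)
      rw [Finset.sum_const, Finset.card_univ, nsmul_eq_mul]
    · intro y hy hne
      refine Finset.sum_eq_zero fun j _ => ?_
      by_cases h3 : f y j = Θ
      · rw [if_pos h3]
        by_contra h4
        exact hne (hinj x₀ hx₀ y hy j₀ j (h1.trans h3.symm) h2 h4).symm
      · rw [if_neg h3]
  · push Not at h
    rw [Finset.sum_eq_zero, norm_zero]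
    · positivity
    · intro x hx
      refine Finset.sum_eq_zero fun j _ => ?_
      by_cases h3 : f x j = Θ
      · rw [if_pos h3, h x hx j h3]
      · rw [if_neg h3]

section fn

variable {p m : ℕ} {P G H : Type} [Group P] [Fintype P] [Group G] [Group H] [NeZero p]
  [NeZero (p ^ m)]

theorem ch_tz (hp : p.Prime) (hm : 1 ≤ m) (a : ZMod p) : ch (p ^ m) (tz p m a) = ch p a :=
  tz_ch hp hm a

omit [NeZero (p ^ m)] in
theorem ch_conj (a : ZMod p) : conj (ch p a) = ch p (-a) := by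
  have h1 : ch p a * ch p (-a) = 1 := by
    rw [← AddChar.map_add_eq_mul, add_neg_cancel, AddChar.map_zero_eq_one]
  have h2 : ch p a * conj (ch p a) = 1 := by
    rw [Complex.mul_conj, Complex.normSq_eq_norm_sq, ch_norm]
    simp
  have h3 : ch p a ≠ 0 := by
    intro h
    rw [h, zero_mul] at h1
    exact zero_ne_one h1
  exact mul_left_cancel₀ h3 (h2.trans h1.symm)

omit [NeZero (p ^ m)] in
theorem ch_prim : (ch p).IsPrimitive := by
  intro a ha h
  apply ha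
  have h1 : ch p (a * 1) = 1 := by
    rw [← AddChar.mulShift_apply, h, AddChar.one_apply]
  rw [mul_one] at h1
  exact ch_inj p h1

theorem v2_conj (E : CE p G H) (hp : p.Prime) (hm : 1 ≤ m) {q : P →* G}
    (hq : Function.Surjective q) {b : P → P → ZMod (p ^ m)}
    {w : G → G → G → ZMod (p ^ m)} {κ : H → H → H → ZMod (p ^ m)} {ν : H → H → ZMod p}
    (hb : ∀ x y z, d2 b x y z = w (q x) (q y) (q z))
    (hw : ∀ x y z, w x y z = κ (E.pi x) (E.pi y) (E.pi z) +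
      tz p m (ν (E.pi x) (E.pi y) * E.et z)) (hκ : Nr3 κ) (hν : Coc p ν) (t : P) (g x : H) :
    V2 E q b t (g * x * g⁻¹) = V2 E q b t x * ch p (-(ν g x - ν (g * x * g⁻¹) g)) := by
  have hν' : Nr2 ν := ⟨hν.l1, hν.r1⟩
  have h1 := vb_conj' q hq hb t (E.s g) (E.i 1) (E.s x)
  have e1 : E.s g * E.i 1 * (E.s g)⁻¹ = E.i 1 := by
    rw [← E.cent, mul_inv_cancel_right]
  rw [e1, v2_eq E q hb hw hκ hν', v2_eq E q hb hw hκ hν'] at h1
  simp only [map_mul, map_inv, E.pi_s] at h1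
  rw [h1]
  congr 1
  rw [← ch_tz hp hm]
  congr 1
  unfold br hc
  rw [e1]
  simp only [hw, map_mul, map_inv, E.pi_s, E.pi_i, hκ.l, hκ.m, hκ.r, hν.l1, hν.r1, E.et_i',
    zero_mul, mul_one, map_zero, add_zero, zero_add, sub_zero, zero_sub, map_neg, map_sub]
  ring

/-- the function on the extension -/
def Fn (E : CE p G H) (q : P →* G) (b : P → P → ZMod (p ^ m)) (t : P) {ν : H → H → ZMod p}
    (he : Coc p (e2 ν)) (x : Xt (e2 ν) he) : ℂ :=
  V2 E q b t x.r.1 * conj (V2 E q b t x.r.2) * ch p x.z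

theorem fn_cz (E : CE p G H) (hp : p.Prime) (hm : 1 ≤ m) {q : P →* G}
    (hq : Function.Surjective q) {b : P → P → ZMod (p ^ m)}
    {w : G → G → G → ZMod (p ^ m)} {κ : H → H → H → ZMod (p ^ m)} {ν : H → H → ZMod p}
    (hb : ∀ x y z, d2 b x y z = w (q x) (q y) (q z))
    (hw : ∀ x y z, w x y z = κ (E.pi x) (E.pi y) (E.pi z) +
      tz p m (ν (E.pi x) (E.pi y) * E.et z)) (hκ : Nr3 κ) (hν : Coc p ν)
    (hH : ∀ x : H, x ^ p = 1) (hpw : ∀ h, ∑ j ∈ Finset.range p, ν h (h ^ j) = 0) (t : P) :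
    Cz p (Xt (e2 ν) (e2_coc hν)) (Fn E q b t (e2_coc hν)) where
  exp := xt_exp hp (e2_coc hν) (fun r => Prod.ext (hH _) (hH _)) (e2_pw hpw)
  cls g x := by
    obtain ⟨h1, h2⟩ := xt_conj (e2_coc hν) g x
    unfold Fn
    rw [h1, h2]
    have e1 : (g.r * x.r * g.r⁻¹).1 = g.r.1 * x.r.1 * g.r.1⁻¹ := rfl
    have e2 : (g.r * x.r * g.r⁻¹).2 = g.r.2 * x.r.2 * g.r.2⁻¹ := rfl
    rw [e1, e2, v2_conj E hp hm hq hb hw hκ hν, v2_conj E hp hm hq hb hw hκ hν, map_mul,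
      ch_conj]
    have e3 : x.z + ST.e2 ν g.r x.r - ST.e2 ν (g.r * x.r * g.r⁻¹) g.r =
        (ν g.r.1 x.r.1 - ν (g.r.1 * x.r.1 * g.r.1⁻¹) g.r.1) +
        (-(ν g.r.2 x.r.2 - ν (g.r.2 * x.r.2 * g.r.2⁻¹) g.r.2)) + x.z := by
      unfold ST.e2
      rw [e1, e2]
      ring
    rw [e3, AddChar.map_add_eq_mul, AddChar.map_add_eq_mul, neg_neg]
    have h3 : ∀ a : ZMod p, ch p (-a) * ch p a = 1 := fun a => by
      rw [← AddChar.map_add_eq_mul, neg_add_cancel, AddChar.map_zero_eq_one]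
    have h4 := h3 (ν g.r.1 x.r.1 - ν (g.r.1 * x.r.1 * g.r.1⁻¹) g.r.1)
    have h5 := h3 (ν g.r.2 x.r.2 - ν (g.r.2 * x.r.2 * g.r.2⁻¹) g.r.2)
    set A := ch p (-(ν g.r.1 x.r.1 - ν (g.r.1 * x.r.1 * g.r.1⁻¹) g.r.1))
    set A' := ch p (ν g.r.1 x.r.1 - ν (g.r.1 * x.r.1 * g.r.1⁻¹) g.r.1)
    set B := ch p (-(ν g.r.2 x.r.2 - ν (g.r.2 * x.r.2 * g.r.2⁻¹) g.r.2))
    set B' := ch p (ν g.r.2 x.r.2 - ν (g.r.2 * x.r.2 * g.r.2⁻¹) g.r.2)
    set V := V2 E q b t x.r.1
    set V' := conj (V2 E q b t x.r.2)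
    linear_combination V * V' * ch p x.z * B * B' * h4 + V * V' * ch p x.z * h5

omit [NeZero (p ^ m)] in
theorem fn_cent [NeZero (p ^ m)] (E : CE p G H) (q : P →* G) (b : P → P → ZMod (p ^ m)) (t : P)
    {ν : H → H → ZMod p} (he : Coc p (e2 ν)) (x : Xt (e2 ν) he) (a : ZMod p) :
    Fn E q b t he (⟨1, a⟩ * x) = ch p a * Fn E q b t he x := by
  have h1 : (⟨1, a⟩ * x : Xt (e2 ν) he) = ⟨x.r, a + x.z⟩ := by
    rw [Xt.ext_iff]
    refine ⟨one_mul _, ?_⟩
    show a + x.z + e2 ν 1 x.r = a + x.z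
    rw [he.l1, add_zero]
  rw [h1]
  unfold Fn
  rw [AddChar.map_add_eq_mul]
  ring

end fn

section rx

variable {Γ : Type} [Group Γ] {p : ℕ} {R : Type} [Group R] {e : R → R → ZMod p}

/-- the twist by a character -/
def Rx (he : Coc p e) (Θ : Γ →* Xt e he) (χ : Γ →* Multiplicative (ZMod p)) : Γ →* Xt e he :=
  MonoidHom.mk' (fun σ => ⟨(Θ σ).r, (Θ σ).z + Multiplicative.toAdd (χ σ)⟩) (by
    intro σ τ
    rw [Xt.ext_iff]
    refine ⟨?_, ?_⟩
    · show (Θ (σ * τ)).r = (Θ σ).r * (Θ τ).r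
      rw [map_mul]
      rfl
    · show (Θ (σ * τ)).z + Multiplicative.toAdd (χ (σ * τ)) =
        ((Θ σ).z + Multiplicative.toAdd (χ σ)) + ((Θ τ).z + Multiplicative.toAdd (χ τ)) +
          e (Θ σ).r (Θ τ).r
      have h1 : (Θ (σ * τ)).z = (Θ σ).z + (Θ τ).z + e (Θ σ).r (Θ τ).r := by
        rw [map_mul]
        rfl
      rw [h1, map_mul, toAdd_mul]
      ring)

theorem rx_apply (he : Coc p e) (Θ : Γ →* Xt e he) (χ : Γ →* Multiplicative (ZMod p)) (σ : Γ) :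
    Rx he Θ χ σ = ⟨(Θ σ).r, (Θ σ).z + Multiplicative.toAdd (χ σ)⟩ := rfl

end rx

section gwn

variable {K : Type} [Field K] [NumberField K] {Ω : Type} [Field Ω] [Algebra K Ω]
  {p m : ℕ} {ζ : K} {P G H : Type} [Group P] [Fintype P] [Group G]
  [Group H] [NeZero (p ^ m)]

theorem sv_pi (E : CE p G H) {D : RD0 K p ζ} (L : LDs D Ω) (φ' : Gal(Ω/K) →* H)
    {T : Finset (Pl K)} (a : T → ZMod p) {v : Pl K} (hv : v ∈ T) :
    E.pi (sv E L φ' T a v) = φ' (L.t v) := by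
  unfold sv
  rw [dif_pos hv, map_mul, E.pi_i, E.pi_s, one_mul]

/-- the support of the weights, the bracket of `ν` -/
theorem gw_nu (E : CE p G H) (hp : p.Prime) (hm : 1 ≤ m) {q : P →* G}
    (hq : Function.Surjective q) {b : P → P → ZMod (p ^ m)}
    {w : G → G → G → ZMod (p ^ m)} {κ : H → H → H → ZMod (p ^ m)} {ν : H → H → ZMod p}
    (hb : ∀ x y z, d2 b x y z = w (q x) (q y) (q z))
    (hw : ∀ x y z, w x y z = κ (E.pi x) (E.pi y) (E.pi z) +
      tz p m (ν (E.pi x) (E.pi y) * E.et z)) (hκ : Nr3 κ) (hν : Nr2 ν)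
    {D : RD0 K p ζ} (L : LDs D Ω) {lam : Pl K → ZMod p} (γ : Pl K → P) {φ' : Gal(Ω/K) →* H}
    {T : Finset (Pl K)} {a : T → ZMod p} {v : Pl K} (hv : v ∈ T) (hl : lam v ≠ 0) {x : G}
    (h : gw E q b L lam γ φ' T a v x ≠ 0) : br ν (φ' (L.t v)) (E.pi x) = 0 := by
  have hF : Fact p.Prime := ⟨hp⟩
  unfold gw at h
  set l := lam v with hldef
  have hb' : ∀ x y z, d2 (fun x y => l.val • b x y) x y z =
      (fun x y z => l.val • w x y z) (q x) (q y) (q z) := by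
    intro x y z
    show l.val • b y z - l.val • b (x * y) z + l.val • b x (y * z) - l.val • b x y =
      l.val • w (q x) (q y) (q z)
    rw [← hb x y z]
    unfold d2
    rw [← smul_sub, ← smul_add, ← smul_sub]
  have h1 := vb_nu q hq E (w := fun x y z => l.val • w x y z)
    (k := fun x y z => l.val • κ x y z) (ν := fun x y => l * ν x y) (θ := tz p m) hb'
    ⟨fun y z => by rw [hκ.l, smul_zero], fun x z => by rw [hκ.m, smul_zero],
      fun x y => by rw [hκ.r, smul_zero]⟩ (tz_inj hp hm)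
    ⟨fun y => by rw [hν.l, mul_zero], fun x => by rw [hν.r, mul_zero]⟩
    (fun x y z => by rw [hw, smul_add, val_th hp, mul_assoc]) h
  rw [sv_pi E L φ' a hv] at h1
  have h2 : l * br ν (φ' (L.t v)) (E.pi x) = 0 := by
    rw [← h1]
    unfold br
    ring
  rcases mul_eq_zero.1 h2 with h3 | h3
  · exact absurd h3 hl
  · exact h3

/-- the support of the weights, the class -/
theorem gw_cl (E : CE p G H) (q : P →* G) (b : P → P → ZMod (p ^ m)) {D : RD0 K p ζ}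
    (L : LDs D Ω) {lam : Pl K → ZMod p} (γ : Pl K → P) {φ' : Gal(Ω/K) →* H}
    {T : Finset (Pl K)} {a : T → ZMod p} {v : Pl K} (hv : v ∈ T) {x : G}
    (h : gw E q b L lam γ φ' T a v x ≠ 0) : IsConj (φ' (L.t v)) (E.pi (q (γ v))) := by
  obtain ⟨σ, x', h1, h2, -, -⟩ := vb_supp q h
  rw [← sv_pi E L φ' a hv, ← h2]
  exact E.pi.map_isConj (q.map_isConj h1)

end gwn

end Pool.Agent.H19.ST
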