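import Pool.Agent.H4.AP.Mg

/-!
# [H19 ST MNC] the main case

State `(b, w' ∘ π)` on `G`, `θ = tz`. `BB (T ∪ {u})` minus the sum over the homomorphisms `β : H → ZMod p` of `p^(-r) ζ_β` times `BB` for the state
`(b - θ (β ∪ et) ∘ q, w' + θ (β ∪ ee))` on `H` is a combination of values `F (Θ (F_u))`, `Θ = (φ', Lam k κ)`, `F (x, z) = V2 x * ch z`, `V2 x = Vg q b (c.g j₀) (E.i 1) (E.s x)`.
Proof:
* `fib` for `X φ = ec (Jf ..) * ∏ Vg ..` over `insert u T` (`vb_j0`: `φ t_u = E.i 1` if `X φ ≠ 0`); `Jf` for `w' ∘ π` depends on `φ'` only; the factor at `u` is `V2 (φ' F_u)` (`vb_j0i`);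
  `mf` for the product over `T`, `g v x = Vg q (lam • b) (γ v) (s v) x`, `ψ = ch p`.
* `co Θ = ∑_a ec (J φ') Af k κ` if `Θ = (φ', Lam k κ)` (unique by `lam_inj`), `φ' ∈ XS`, `Lc φ'`, and `Lam k κ` is not of the form `-β ∘ φ'`; `0` otherwise. `af_norm`, `vb_norm`.
* the remaining terms, `Lam k κ = -β ∘ φ'` (for every `β` one pair `(k, κ)`: `lam_all`, `lam_inj`): `bet`, then the sum over `a` with `vb_proj'` (for `lam v * β`; it is zero without `Lc` by `vb_comm`),
  the factor at `u` with `vb_proj0`: this is `BB` for `β` (`xs_triv` at `u`: `vb_j0` for `π ∘ q`).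
* `mr Θ F = 0`: `co Θ ≠ 0` gives `Vg ≠ 0` (`fh_ne`), so `φ' t_v` is conjugate to `π q (γ v)` (`vb_supp`); if all classes different from `j₀` occur then `φ'` is onto (`jor`, `π q (c.g j₀) = 1`), `prd_cent`, `mr_cent`.
-/

set_option autoImplicit false
set_option linter.dupNamespace false

open scoped NumberField ComplexConjugate
open IsDedekindDomain
open scoped Classical

noncomputable section

namespace Pool.Agent.H19.ST

open H63.MA H38.BB H38.BG H57.PC H57.BRA H57.GP H77.PC3 H77.WD Pool.Agent.H19.NF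
  Pool.Agent.H19.AB H86.AP H4.AP

variable {K : Type} [Field K] [NumberField K] {Ω : Type} [Field Ω] [Algebra K Ω]
  [IsAlgClosure K Ω] {p m N : ℕ} {ζ : K} {P G H : Type} [Group P] [Fintype P] [Group G]
  [Fintype G] [Group H] [Fintype H]

/-- the homomorphisms to `ZMod p` -/
def Bh (p : ℕ) [NeZero p] (H : Type) [Group H] [Fintype H] : Finset (H → ZMod p) :=
  Finset.univ.filter fun β => ∀ x y, β (x * y) = β x + β y

omit [IsAlgClosure K Ω] in
theorem ev_add {D : RD0 K p ζ} (L : LDs D Ω) (Fr : FR L) {H' : Type} [Group H'] (F : H' → ℂ)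
    (T : Finset (Pl K)) (f g : (Gal(Ω/K) →* H') → ℂ) (u : Pl K) :
    Ev L Fr H' F T (fun Θ => f Θ + g Θ) u = Ev L Fr H' F T f u + Ev L Fr H' F T g u := by
  unfold Ev
  rw [← Finset.sum_add_distrib]
  exact Finset.sum_congr rfl fun Θ _ => by ring

private theorem sum_one {X : Type} (S : Finset X) (x₀ : X) (g : X → ℂ) {M : ℝ} (hM : 0 ≤ M)
    (h : ∀ x ∈ S, x ≠ x₀ → g x = 0) (h0 : ‖g x₀‖ ≤ M) : ‖∑ x ∈ S, g x‖ ≤ M := by
  by_cases hx : x₀ ∈ S
  · rw [Finset.sum_eq_single_of_mem x₀ hx fun x hx h' => h x hx h']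
    exact h0
  · rw [Finset.sum_eq_zero fun x hxS => h x hxS fun h' => hx (h' ▸ hxS), norm_zero]
    exact hM

theorem mnc [NeZero p] [NeZero (p ^ m)] (E : CE p G H) (hp : p.Prime) (hm : 1 ≤ m)
    (hp2 : MOne p K) (hζ : IsPrimitiveRoot ζ p) (hz : Z2 p K) (D : RD K p ζ)
    (L : LDs D.toRD0 Ω) (Q : DP K Ω) (Fr : FR L)
    (I : (Gal(Ω/K) → Gal(Ω/K) → Gal(Ω/K) → ZMod (p ^ m)) →+ AddCircle (1 : ℝ))
    (hI : Fnl p D.toRD0 L Q Fr D.lam m I) (hP : ∀ x : P, x ^ p = 1) (c : CL p N P)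
    (hc : ∀ x : P, x ≠ 1 → ∃ j, IsConj x (c.g j)) (φ₁ : Gal(Ω/K) →* P) (h₁ : H38.ML.FT φ₁)
    (q : P →* G) (hq : Function.Surjective q) (j₀ : Fin N) (hj : q (c.g j₀) = E.i 1)
    {b : P → P → ZMod (p ^ m)} {w' : H → H → H → ZMod (p ^ m)}
    (hb : ∀ x y z, d2 b x y z = w' (E.pi (q x)) (E.pi (q y)) (E.pi (q z))) (hw : Nr3 w') :
    Mn L Fr c j₀ fun T γ =>
      BB L Q Fr D.lam I φ₁ q b (fun x y z => w' (E.pi x) (E.pi y) (E.pi z)) T γ -
      ∑ β ∈ Bh p H, ((p : ℂ) ^ D.r)⁻¹ *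
        ec (-ZMod.toAddCircle (TS L Fr D.lam (pl2 (be (tz p m) E β) (q.comp φ₁)))) *
        BB L Q Fr D.lam I φ₁ (E.pi.comp q) (fun x y => b x y - be (tz p m) E β (q x) (q y))
          (fun x y z => w' x y z + tz p m (β x * E.ee y z)) T γ := by
  have hF : Fact p.Prime := ⟨hp⟩
  have hG : ∀ x : G, x ^ p = 1 := by
    intro x
    obtain ⟨x, rfl⟩ := hq x
    rw [← map_pow, hP, map_one]
  have hH : ∀ x : H, x ^ p = 1 := exp_H E hG
  obtain ⟨Xi, hXf, hXt, hXi, hXu⟩ := xu_fam hp hp2 hζ D L Q Fr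
  have hXinj : Function.Injective Xi := by
    intro κ κ' h
    obtain ⟨κ₀, -, hu⟩ := hXu (Xi κ) (hXf κ) (hXt κ)
    rw [hu κ rfl, hu κ' h]
  have hl : ∀ v, v ∉ D.S0 → D.lam v ≠ 0 := fun v hv => lam_ne hp hp2 hζ D L Q Fr hv
  obtain ⟨B, hB⟩ : ∃ B : ℝ, B = Fintype.card P := ⟨_, rfl⟩
  have hB1 : 1 ≤ B := by
    rw [hB]
    exact_mod_cast Fintype.card_pos
  obtain ⟨n, hn⟩ : ∃ n : ℝ, n = (Bh p H).card := ⟨_, rfl⟩
  have hn0 : 0 ≤ n := by
    rw [hn]
    exact Nat.cast_nonneg _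
  have hp1 : (1 : ℝ) ≤ p := by exact_mod_cast hp.one_lt.le
  have hC1 : 1 ≤ (p : ℝ) ^ 2 * B := one_le_mul_of_one_le_of_one_le (one_le_pow₀ hp1) hB1
  refine ⟨H × Multiplicative (ZMod p), inferInstance, inferInstance, F2 E q b (c.g j₀),
    (1 + n) * ((p : ℝ) ^ 2 * B), f2_cz E hG q hq hb hw _,
    one_le_mul_of_one_le_of_one_le (by linarith) hC1, fun T γ hT => ?_⟩
  obtain ⟨cR, ρR, hLR, hX⟩ := bb_x E hp hp2 hζ hz D.toRD0 L Q Fr D.lam_one I hG (c.g j₀) φ₁ h₁ q
    hj hb hw T hT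
  -- the families
  let ψ₁ : Gal(Ω/K) →* H := E.pi.comp (q.comp φ₁)
  let AA : (Gal(Ω/K) →* H) × ((T → ZMod p) × (T → ZMod p) × (Fin D.r → ZMod p)) → ℂ := fun i =>
    if Lc E L Fr T i.1 then ec (Jf I w' i.1 ψ₁) * Af D (ch p) E Fr (cR i.1 i.2.1) (ρR i.1 i.2.1)
      (gv E L q D.lam b γ i.1 T i.2.1) T i.2.2.1 i.2.2.2 else 0
  let κc : (H → ZMod p) → ℂ := fun β => ((p : ℂ) ^ D.r)⁻¹ *
    ec (-ZMod.toAddCircle (TS L Fr D.lam (pl2 (be (tz p m) E β) (q.comp φ₁))))
  let TB : (Gal(Ω/K) →* H) → (H → ZMod p) → ℂ := fun φ' β =>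
    ec (Jf I (fun x y z => w' x y z + tz p m (β x * E.ee y z)) φ' ψ₁) *
      ∏ v ∈ T, Vg (E.pi.comp q)
        (fun x y => (D.lam v).val • (b x y - be (tz p m) E β (q x) (q y))) (γ v)
          (φ' (L.t v)) (φ' (Fr.F v))
  have nested : ∀ f : (Gal(Ω/K) →* H) × ((T → ZMod p) × (T → ZMod p) × (Fin D.r → ZMod p)) → ℂ,
      ∑ i ∈ XS L Q ψ₁ T ×ˢ Finset.univ, f i =
        ∑ φ' ∈ XS L Q ψ₁ T, ∑ a : T → ZMod p, ∑ k : T → ZMod p, ∑ κ : Fin D.r → ZMod p,
          f (φ', a, k, κ) := by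
    intro f
    rw [Finset.sum_product]
    refine Finset.sum_congr rfl fun φ' _ => ?_
    rw [Fintype.sum_prod_type]
    refine Finset.sum_congr rfl fun a _ => ?_
    rw [Fintype.sum_prod_type]
  have hon : ∀ φ' ∈ XS L Q ψ₁ T, Hon L T φ' := fun φ' h =>
    ((mem_xs hp hζ L Q hH ψ₁ T φ').1 h).1
  have hBh : ∀ β ∈ Bh p H, ∀ x y, β (x * y) = β x + β y := fun β h =>
    (Finset.mem_filter.1 h).2
  have hgv : ∀ (φ' : Gal(Ω/K) →* H) (a : T → ZMod p) (v : Pl K) (x : G),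
      ‖gv E L q D.lam b γ φ' T a v x‖ ≤ B := fun φ' a v x => by
    rw [hB]
    exact vb_norm q _ _ _
  have hec : ∀ x : AddCircle (1 : ℝ), ‖ec x‖ = 1 := H4.AP.ec_norm
  have hpr : (0 : ℝ) < (p : ℝ) ^ D.r := by positivity
  have hAA : ∀ i, ‖AA i‖ ≤ ((p : ℝ) ^ D.r)⁻¹ * B ^ T.card := by
    intro i
    show ‖(if _ then _ else _ : ℂ)‖ ≤ _
    split_ifs
    · rw [norm_mul, hec, one_mul]
      exact af_norm D hp (ch p) E Fr _ _ (hgv _ _) T _ _
    · rw [norm_zero]
      positivity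
  have hκ : ∀ β, ‖κc β‖ ≤ 1 := by
    intro β
    show ‖((p : ℂ) ^ D.r)⁻¹ * ec _‖ ≤ 1
    rw [norm_mul, hec, mul_one, norm_inv, norm_pow, Complex.norm_natCast]
    exact inv_le_one_of_one_le₀ (one_le_pow₀ hp1)
  have hTB : ∀ φ' β, ‖TB φ' β‖ ≤ B ^ T.card := by
    intro φ' β
    show ‖ec _ * ∏ v ∈ T, _‖ ≤ _
    rw [norm_mul, hec, one_mul, norm_prod, ← Finset.prod_const]
    refine Finset.prod_le_prod (fun _ _ => norm_nonneg _) fun v _ => ?_
    rw [hB]
    exact vb_norm _ _ _ _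
  refine ⟨fun Θ => (∑ i ∈ XS L Q ψ₁ T ×ˢ Finset.univ,
      if Θ = i.1.prod (Lam D Xi T i.2.2.1 i.2.2.2) then AA i else 0) +
      ∑ i ∈ XS L Q ψ₁ T ×ˢ Bh p H, if Θ = i.1.prod (nbh i.2 i.1) then
        -(κc i.2 * TB i.1 i.2) else 0, fun Θ => ?_, fun Θ hΘ hall => ?_, fun u hu huT => ?_⟩
  · -- the bound
    set φ' : Gal(Ω/K) →* H := (MonoidHom.fst H (Multiplicative (ZMod p))).comp Θ with hφ'
    have hfst : ∀ (φ'' : Gal(Ω/K) →* H) (χ : Gal(Ω/K) →* Multiplicative (ZMod p)), φ'' ≠ φ' →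
        Θ ≠ φ''.prod χ := by
      intro φ'' χ hne h
      apply hne
      rw [hφ', h]
      rfl
    have hcn : ∀ m : ℕ, Fintype.card (Fin m → ZMod p) = p ^ m := by
      intro m
      rw [Fintype.card_fun, ZMod.card, Fintype.card_fin]
    have hcT : Fintype.card (T → ZMod p) = p ^ T.card := by
      rw [Fintype.card_fun, ZMod.card, Fintype.card_coe]
    have b1 : ‖∑ i ∈ XS L Q ψ₁ T ×ˢ Finset.univ,
        if Θ = i.1.prod (Lam D Xi T i.2.2.1 i.2.2.2) then AA i else 0‖ ≤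
        ((p : ℝ) ^ 2 * B) ^ T.card := by
      rw [nested]
      refine sum_one _ φ' _ (by positivity) (fun φ'' _ hne => ?_) ?_
      · refine Finset.sum_eq_zero fun a _ => Finset.sum_eq_zero fun k _ =>
          Finset.sum_eq_zero fun κ _ => if_neg (hfst φ'' _ hne)
      · have h1 : ∀ a k κ, ‖(if Θ = φ'.prod (Lam D Xi T k κ) then AA (φ', a, k, κ) else 0 : ℂ)‖ ≤
            ((p : ℝ) ^ D.r)⁻¹ * B ^ T.card := by
          intro a k κ
          split_ifs
          · exact hAA _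
          · rw [norm_zero]
            positivity
        refine (norm_sum_le _ _).trans ((Finset.sum_le_sum fun a _ => (norm_sum_le _ _).trans
          (Finset.sum_le_sum fun k _ => (norm_sum_le _ _).trans
            (Finset.sum_le_sum fun κ _ => h1 a k κ))).trans (le_of_eq ?_))
        simp only [Finset.sum_const, Finset.card_univ, hcn, hcT, nsmul_eq_mul]
        push_cast
        rw [mul_pow, ← pow_mul]
        field_simp
        ring
    have b2 : ‖∑ i ∈ XS L Q ψ₁ T ×ˢ Bh p H, if Θ = i.1.prod (nbh i.2 i.1) then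
        -(κc i.2 * TB i.1 i.2) else 0‖ ≤ n * B ^ T.card := by
      rw [Finset.sum_product]
      refine sum_one _ φ' _ (by positivity) (fun φ'' _ hne => ?_) ?_
      · exact Finset.sum_eq_zero fun β _ => if_neg (hfst φ'' _ hne)
      · have h1 : ∀ β, ‖(if Θ = φ'.prod (nbh β φ') then -(κc β * TB φ' β) else 0 : ℂ)‖ ≤
            B ^ T.card := by
          intro β
          split_ifs
          · rw [norm_neg, norm_mul]
            calc ‖κc β‖ * ‖TB φ' β‖ ≤ 1 * B ^ T.card :=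
                  mul_le_mul (hκ β) (hTB φ' β) (norm_nonneg _) zero_le_one
              _ = _ := one_mul _
          · rw [norm_zero]
            positivity
        refine (norm_sum_le _ _).trans ((Finset.sum_le_sum fun β _ => h1 β).trans (le_of_eq ?_))
        rw [Finset.sum_const, nsmul_eq_mul, hn]
    have b3 : B ^ T.card ≤ ((p : ℝ) ^ 2 * B) ^ T.card := by
      refine pow_le_pow_left₀ (by linarith) ?_ _
      have h1 : 1 ≤ (p : ℝ) ^ 2 := one_le_pow₀ hp1
      nlinarith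
    have b4 : n * B ^ T.card ≤ n * ((p : ℝ) ^ 2 * B) ^ T.card := mul_le_mul_of_nonneg_left b3 hn0
    have b5 : (1 + n) * ((p : ℝ) ^ 2 * B) ^ T.card ≤ ((1 + n) * ((p : ℝ) ^ 2 * B)) ^ (T.card + 1) := by
      rw [mul_pow (1 + n)]
      have h1 : 1 + n ≤ (1 + n) ^ (T.card + 1) := by
        have h2 := one_le_pow₀ (n := T.card) (show (1 : ℝ) ≤ 1 + n by linarith)
        rw [pow_succ]
        nlinarith
      have h3 : ((p : ℝ) ^ 2 * B) ^ T.card ≤ ((p : ℝ) ^ 2 * B) ^ (T.card + 1) :=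
        pow_le_pow_right₀ hC1 (Nat.le_succ _)
      exact mul_le_mul h1 h3 (by positivity) (by positivity)
    refine (norm_add_le _ _).trans ?_
    calc _ ≤ ((p : ℝ) ^ 2 * B) ^ T.card + n * B ^ T.card := add_le_add b1 b2
      _ ≤ (1 + n) * ((p : ℝ) ^ 2 * B) ^ T.card := by
        rw [add_mul, one_mul]
        linarith
      _ ≤ _ := b5
  · -- the mean
    obtain ⟨φ', hφ'⟩ : ∃ φ' : Gal(Ω/K) →* H,
      φ' = (MonoidHom.fst H (Multiplicative (ZMod p))).comp Θ := ⟨_, rfl⟩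
    obtain ⟨χ, hχ⟩ : ∃ χ : Gal(Ω/K) →* Multiplicative (ZMod p),
      χ = (MonoidHom.snd H (Multiplicative (ZMod p))).comp Θ := ⟨_, rfl⟩
    have hΘe : Θ = φ'.prod χ := by
      rw [hφ', hχ]
      rfl
    have hpe : ∀ (φ'' : Gal(Ω/K) →* H) (χ' : Gal(Ω/K) →* Multiplicative (ZMod p)),
        Θ = φ''.prod χ' → φ'' = φ' ∧ χ' = χ := by
      intro φ'' χ' h
      rw [hφ', hχ, h]
      exact ⟨rfl, rfl⟩
    have hcl : φ' ∈ XS L Q ψ₁ T ∧ ∀ v ∈ T, ∃ σ : P, IsConj σ (γ v) ∧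
        E.pi (q σ) = φ' (L.t v) := by
      by_cases hA : ∑ i ∈ XS L Q ψ₁ T ×ˢ Finset.univ,
        (if Θ = i.1.prod (Lam D Xi T i.2.2.1 i.2.2.2) then AA i else 0) = 0
      · have hB : ∑ i ∈ XS L Q ψ₁ T ×ˢ Bh p H, (if Θ = i.1.prod (nbh i.2 i.1) then
            -(κc i.2 * TB i.1 i.2) else 0) ≠ 0 := by
          intro hB
          apply hΘ
          beta_reduce
          rw [hA, hB, add_zero]
        obtain ⟨i, hi, hne⟩ := Finset.exists_ne_zero_of_sum_ne_zero hB
        by_cases h1 : Θ = i.1.prod (nbh i.2 i.1)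
        · rw [if_pos h1] at hne
          rw [← (hpe _ _ h1).1]
          refine ⟨(Finset.mem_product.1 hi).1, fun v hv => ?_⟩
          have h2 : TB i.1 i.2 ≠ 0 := fun h => hne (by rw [h, mul_zero, neg_zero])
          have h3 := (Finset.prod_ne_zero_iff.1 (right_ne_zero_of_mul h2)) v hv
          obtain ⟨σ, x', h4, h5, -, -⟩ := vb_supp (E.pi.comp q) h3
          exact ⟨σ, h4, h5⟩
        · rw [if_neg h1] at hne
          exact absurd rfl hne
      · obtain ⟨i, hi, hne⟩ := Finset.exists_ne_zero_of_sum_ne_zero hA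
        by_cases h1 : Θ = i.1.prod (Lam D Xi T i.2.2.1 i.2.2.2)
        · rw [if_pos h1] at hne
          rw [← (hpe _ _ h1).1]
          refine ⟨(Finset.mem_product.1 hi).1, fun v hv => ?_⟩
          have h2 : (if Lc E L Fr T i.1 then ec (Jf I w' i.1 ψ₁) *
            Af D (ch p) E Fr (cR i.1 i.2.1) (ρR i.1 i.2.1)
              (gv E L q D.lam b γ i.1 T i.2.1) T i.2.2.1 i.2.2.2 else 0) ≠ 0 := hne
          by_cases hLc : Lc E L Fr T i.1
          · rw [if_pos hLc] at h2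
            have h3 := right_ne_zero_of_mul h2
            unfold Af at h3
            have h4 := (Finset.prod_ne_zero_iff.1 (right_ne_zero_of_mul h3)) ⟨v, hv⟩
              (Finset.mem_univ _)
            obtain ⟨a', h5⟩ := fh_ne (left_ne_zero_of_mul h4)
            obtain ⟨σ, x', h6, h7, -, -⟩ := vb_supp q h5
            refine ⟨σ, h6, ?_⟩
            have h8 : sv E L i.1 T i.2.1 v = E.i (i.2.1 ⟨v, hv⟩) * E.s (i.1 (L.t v)) := dif_pos hv
            rw [h7]
            show E.pi (sv E L i.1 T i.2.1 v) = _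
            rw [h8, E.pi_mul, E.pi_s]
          · rw [if_neg hLc] at h2
            exact absurd rfl h2
        · rw [if_neg h1] at hne
          exact absurd rfl hne
    have hsur : Function.Surjective φ' := onto_lem E hp hG c hc q hq hj γ L.t hcl.2 hall
    rw [hΘe]
    refine mean_lem hp E q b (c.g j₀) hsur fun β hβ => ?_
    by_contra hcon
    push Not at hcon
    apply hΘ
    have hβm : β ∈ Bh p H := Finset.mem_filter.2 ⟨Finset.mem_univ _, hβ⟩
    have hχβ : χ = nbh β φ' := by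
      ext σ
      rw [nbh_apply hβ]
      exact hcon σ
    have hφhon := hon φ' hcl.1
    obtain ⟨hχf, hχu⟩ := nbh_hon L hφhon hβ
    rw [← hχβ] at hχf hχu
    obtain ⟨k₀, κ₀, hk⟩ := lam_all D Xi hp hζ L hl (fun ξ h1 h2 => by
      obtain ⟨κ, hκ1, -⟩ := hXu ξ h1 h2
      exact ⟨κ, hκ1⟩) hT χ hχf hχu
    have s1 : ∑ i ∈ XS L Q ψ₁ T ×ˢ Finset.univ,
        (if Θ = i.1.prod (Lam D Xi T i.2.2.1 i.2.2.2) then AA i else 0) =
        ∑ a : T → ZMod p, AA (φ', a, k₀, κ₀) := by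
      rw [nested, Finset.sum_eq_single_of_mem φ' hcl.1]
      · refine Finset.sum_congr rfl fun a _ => ?_
        rw [Finset.sum_eq_single_of_mem k₀ (Finset.mem_univ _),
          Finset.sum_eq_single_of_mem κ₀ (Finset.mem_univ _)]
        · rw [if_pos]
          rw [hΘe, hk]
        · intro κ _ hne
          refine if_neg fun h => hne ?_
          have h2 := (hpe _ _ h).2
          rw [hk] at h2
          exact (lam_inj D Xi hp hζ L hl hXt hXinj hT h2).2
        · intro k _ hne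
          refine Finset.sum_eq_zero fun κ _ => if_neg fun h => hne ?_
          have h2 := (hpe _ _ h).2
          rw [hk] at h2
          exact (lam_inj D Xi hp hζ L hl hXt hXinj hT h2).1
      · intro φ'' _ hne
        exact Finset.sum_eq_zero fun a _ => Finset.sum_eq_zero fun k _ =>
          Finset.sum_eq_zero fun κ _ => if_neg fun h => hne (hpe _ _ h).1
    have s2 : ∑ i ∈ XS L Q ψ₁ T ×ˢ Bh p H, (if Θ = i.1.prod (nbh i.2 i.1) then
        -(κc i.2 * TB i.1 i.2) else 0) = -(κc β * TB φ' β) := by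
      rw [Finset.sum_product, Finset.sum_eq_single_of_mem φ' hcl.1,
        Finset.sum_eq_single_of_mem β hβm]
      · rw [if_pos]
        rw [hΘe, hχβ]
      · intro β' hβ' hne
        refine if_neg fun h => hne ?_
        have h2 := (hpe _ _ h).2
        funext x
        obtain ⟨σ, rfl⟩ := hsur x
        have h3 := congrArg (fun χ' : Gal(Ω/K) →* Multiplicative (ZMod p) =>
          Multiplicative.toAdd (χ' σ)) h2
        beta_reduce at h3
        rw [nbh_apply (hBh β' hβ'), hcon σ] at h3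
        exact neg_injective h3
      · intro φ'' _ hne
        exact Finset.sum_eq_zero fun β' _ => if_neg fun h => hne (hpe _ _ h).1
    have s3 : ∑ a : T → ZMod p, AA (φ', a, k₀, κ₀) = κc β * TB φ' β :=
      key_be E hp hm hp2 hζ D L Q Fr Xi hXt hXi I hI hG φ₁ h₁ q hq b w' γ hT (cR φ') (ρR φ')
        (hLR φ' hcl.1) hβ fun σ => by rw [← hk, hcon σ]
    beta_reduce
    rw [s1, s2, s3, add_neg_cancel]
  · -- the values
    rw [ev_add, ← ev_fam L Fr (F2 E q b (c.g j₀)) T (XS L Q ψ₁ T ×ˢ Finset.univ)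
        (fun i => i.1.prod (Lam D Xi T i.2.2.1 i.2.2.2)) AA ?_ u,
      ← ev_fam L Fr (F2 E q b (c.g j₀)) T (XS L Q ψ₁ T ×ˢ Bh p H)
        (fun i => i.1.prod (nbh i.2 i.1)) (fun i => -(κc i.2 * TB i.1 i.2)) ?_ u]
    · have e1 : H86.AP.BB L Q Fr D.lam I φ₁ q b (fun x y z => w' (E.pi x) (E.pi y) (E.pi z))
          (insert u T) (Function.update γ u (c.g j₀)) =
          ∑ i ∈ XS L Q ψ₁ T ×ˢ Finset.univ, AA i * F2 E q b (c.g j₀)
            (i.1.prod (Lam D Xi T i.2.2.1 i.2.2.2) (Fr.F u)) := by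
        rw [hX γ u hu huT, nested]
        refine Finset.sum_congr rfl fun φ' hφ' => Finset.sum_congr rfl fun a _ => ?_
        by_cases hLc : Lc E L Fr T φ'
        · rw [if_pos hLc, mul_assoc, bb_af E hp hp2 hζ D L Q Fr Xi hXi q b γ (c.g j₀) T hT φ' a
            (cR φ' a) (ρR φ' a) hu, Finset.mul_sum]
          refine Finset.sum_congr rfl fun k _ => ?_
          rw [Finset.mul_sum]
          refine Finset.sum_congr rfl fun κ _ => ?_
          show _ = (if Lc E L Fr T φ' then _ else _) * _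
          rw [if_pos hLc, mul_assoc]
        · rw [if_neg hLc]
          symm
          refine Finset.sum_eq_zero fun k _ => Finset.sum_eq_zero fun κ _ => ?_
          show (if Lc E L Fr T φ' then _ else _) * _ = _
          rw [if_neg hLc, zero_mul]
      have e2 : ∀ β ∈ Bh p H, ((p : ℂ) ^ D.r)⁻¹ *
          ec (-ZMod.toAddCircle (TS L Fr D.lam (pl2 (be (tz p m) E β) (q.comp φ₁)))) *
          H86.AP.BB L Q Fr D.lam I φ₁ (E.pi.comp q)
            (fun x y => b x y - be (tz p m) E β (q x) (q y))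
            (fun x y z => w' x y z + tz p m (β x * E.ee y z)) (insert u T)
            (Function.update γ u (c.g j₀)) =
          ∑ φ' ∈ XS L Q ψ₁ T, κc β * TB φ' β * F2 E q b (c.g j₀)
            (φ'.prod (nbh β φ') (Fr.F u)) := by
        intro β hβ
        rw [bb_be E hp hm hζ D.toRD0 L Q Fr D.lam_one I hG (c.g j₀) φ₁ q hq hj hb hw (hBh β hβ)
          T γ hu huT, Finset.mul_sum]
        refine Finset.sum_congr rfl fun φ' _ => ?_
        rw [← mul_assoc]
      beta_reduce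
      rw [e1, Finset.sum_congr rfl e2, sub_eq_add_neg, Finset.sum_product (s := XS L Q ψ₁ T)
        (t := Bh p H), Finset.sum_comm (s := Bh p H), ← Finset.sum_neg_distrib]
      congr 1
      refine Finset.sum_congr rfl fun φ' _ => ?_
      rw [← Finset.sum_neg_distrib]
      refine Finset.sum_congr rfl fun β _ => ?_
      rw [neg_mul]
    · intro i hi
      exact hs_nbh hp hζ hH L (hon _ (Finset.mem_product.1 hi).1)
        (hBh _ (Finset.mem_product.1 hi).2)
    · intro i hi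
      exact hs_lam hp hζ hH D L Xi hXf hXt hT (hon _ (Finset.mem_product.1 hi).1) _ _

end Pool.Agent.H19.ST
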