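import Pool.Agent.H19.ST.Grp
import Pool.Agent.H19.NF.Pw

/-!
# [H19 ST CAS] the two cases (algebra)

The normal form `nf` (H19/NF/Nf) of the 3-cochain `w` of a state: `w = k ∘ π + θ (ν ∪ et) + d c`, `θ = tz`. If `ν = d μ` then `cup_et` gives `w = w' ∘ π + d c₁`
(main case); `d w' = 0` because `π` is onto. If `b = 0`, `w = 0` take `c₁ = 0`, `w' = 0`. Otherwise `ν` is not a coboundary; `pw_nu` for the exponent.
`β a b' = b (t ^ a.val) (t ^ b'.val)` in `nf`, `q t = E.i 1`, `t ^ p = 1`.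
-/

set_option autoImplicit false
set_option linter.dupNamespace false

open scoped Classical

noncomputable section

namespace Pool.Agent.H19.ST

open H57.BRA Pool.Agent.H19.NF Pool.Agent.H19.AB H86.AP

private theorem i_pow {p : ℕ} [NeZero p] {G H : Type} [Group G] [Group H] (E : CE p G H) (a : ZMod p) :
    E.i a = E.i 1 ^ a.val := by
  have h1 : ∀ n : ℕ, E.i (n : ZMod p) = E.i 1 ^ n := by
    intro n
    induction n with
    | zero => rw [Nat.cast_zero, E.i_zero, pow_zero]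
    | succ n ih => rw [Nat.cast_succ, E.i_add, ih, pow_succ]
  rw [← h1, ZMod.natCast_zmod_val]

theorem cas {p m k : ℕ} (hp : p.Prime) (hk : k + 1 ≤ m) {P G H : Type} [Group P] [Group G]
    [Group H] (E : CE p G H) (q : P →* G) (hq : Function.Surjective q)
    (hP : ∀ x : P, x ^ p = 1) {b : P → P → ZMod (p ^ m)} {w : G → G → G → ZMod (p ^ m)}
    (hbw : Sta p m k q b w) :
    (∃ (c₁ : G → G → ZMod (p ^ m)) (w' : H → H → H → ZMod (p ^ m)), Nr2 c₁ ∧
      (∀ x y, p ^ (k + 1) • c₁ x y = 0) ∧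
      (∀ x y z, w x y z = w' (E.pi x) (E.pi y) (E.pi z) + d2 c₁ x y z) ∧ Nr3 w' ∧
      (∀ x y z, p ^ (k + 1) • w' x y z = 0) ∧ (∀ x y z t, d3 w' x y z t = 0) ∧
      (b = 0 → w = 0 → c₁ = 0 ∧ w' = 0)) ∨
    (¬ (b = 0 ∧ w = 0) ∧ ∃ (c₁ : G → G → ZMod (p ^ m)) (κ : H → H → H → ZMod (p ^ m))
      (ν : H → H → ZMod p), Nr2 c₁ ∧ (∀ x y z, w x y z = κ (E.pi x) (E.pi y) (E.pi z) +
        tz p m (ν (E.pi x) (E.pi y) * E.et z) + d2 c₁ x y z) ∧ Nr3 κ ∧ Coc p ν ∧
      (∀ h, ∑ j ∈ Finset.range p, ν h (h ^ j) = 0) ∧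
      ¬ ∃ μ : H → ZMod p, ∀ x y, d1 μ x y = ν x y) := by
  haveI : NeZero p := ⟨hp.ne_zero⟩
  by_cases h0 : b = 0 ∧ w = 0
  · left
    refine ⟨0, 0, ⟨fun _ => rfl, fun _ => rfl⟩, fun x y => smul_zero _, fun x y z => ?_,
      ⟨fun _ _ => rfl, fun _ _ => rfl, fun _ _ => rfl⟩, fun x y z => smul_zero _,
      fun x y z t => ?_, fun _ _ => ⟨rfl, rfl⟩⟩
    · rw [h0.2]
      show (0 : ZMod (p ^ m)) = 0 + (0 - 0 + 0 - 0)
      simp
    · show (0 : ZMod (p ^ m)) - 0 + 0 - 0 + 0 = 0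
      simp
  have hm : 1 ≤ m := by omega
  have hinj := tz_inj (m := m) hp hm
  obtain ⟨t, ht⟩ := hq (E.i 1)
  have htp : ∀ a b : ZMod p, t ^ a.val * t ^ b.val = t ^ (a + b).val := by
    intro a b
    rw [← pow_add, ZMod.val_add]
    conv_lhs => rw [← Nat.div_add_mod (a.val + b.val) p]
    rw [pow_add, pow_mul, hP t, one_pow, one_mul]
  have hqt : ∀ a : ZMod p, q (t ^ a.val) = E.i a := fun a => by rw [map_pow, ht, ← i_pow]
  obtain ⟨c, hc, hct, ν, hν, hνc, κ, hκ, hκt, hw⟩ := nf E (θ := tz p m) hinj (tz_tor hp hm)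
    (j := k) (tz_div hp hk) hbw.coc hbw.nw hbw.tw (β := fun a b' => b (t ^ a.val) (t ^ b'.val))
    (fun a => by
      show b (t ^ (0 : ZMod p).val) _ = 0
      rw [ZMod.val_zero, pow_zero]
      exact hbw.nb.l _)
    (fun a => by
      show b _ (t ^ (0 : ZMod p).val) = 0
      rw [ZMod.val_zero, pow_zero]
      exact hbw.nb.r _)
    (fun a b' => hbw.tb _ _)
    (fun a b' c' => by
      rw [← hqt a, ← hqt b', ← hqt c', ← hbw.cob]
      unfold d2
      rw [htp, htp])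
  by_cases hμ : ∃ μ : H → ZMod p, ∀ x y, d1 μ x y = ν x y
  · left
    obtain ⟨μ, hμ⟩ := hμ
    have hμ1 : μ 1 = 0 := by
      have h1 := hμ 1 1
      rw [hν.l] at h1
      unfold d1 at h1
      rw [mul_one, sub_self, zero_add] at h1
      exact h1
    have hee := ee_nr E
    have hpz : ∀ a : ZMod p, p ^ (k + 1) • tz p m a = 0 := by
      intro a
      rw [← map_nsmul, nsmul_eq_mul, Nat.cast_pow, ZMod.natCast_self, zero_pow (Nat.succ_ne_zero k),
        zero_mul, map_zero]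
    have hform : ∀ x y z, w x y z = (κ (E.pi x) (E.pi y) (E.pi z) +
        tz p m (μ (E.pi x) * E.ee (E.pi y) (E.pi z))) +
        d2 (fun x y => c x y + tz p m (μ (E.pi x) * E.et y)) x y z := by
      intro x y z
      rw [hw, cup_et E hμ, d2_add]
      abel
    have hd0 : ∀ x y z t, d3 (fun x y z => w x y z -
        d2 (fun x y => c x y + tz p m (μ (E.pi x) * E.et y)) x y z) x y z t = 0 := by
      intro x y z t
      rw [d3_sub, hbw.coc, d3_d2, sub_zero]
    refine ⟨fun x y => c x y + tz p m (μ (E.pi x) * E.et y),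
      fun x y z => κ x y z + tz p m (μ x * E.ee y z), ⟨fun y => ?_, fun x => ?_⟩, fun x y => ?_,
      hform, ⟨fun y z => ?_, fun x z => ?_, fun x y => ?_⟩, fun x y z => ?_, fun x y z t => ?_,
      fun h1 h2 => absurd ⟨h1, h2⟩ h0⟩
    · show c 1 y + tz p m (μ (E.pi 1) * E.et y) = 0
      rw [hc.l, map_one, hμ1, zero_mul, map_zero, add_zero]
    · show c x 1 + tz p m (μ (E.pi x) * E.et 1) = 0
      rw [hc.r, E.et_one, mul_zero, map_zero, add_zero]
    · show p ^ (k + 1) • (c x y + tz p m (μ (E.pi x) * E.et y)) = 0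
      rw [smul_add, hct, hpz, add_zero]
    · show κ 1 y z + tz p m (μ 1 * E.ee y z) = 0
      rw [hκ.l, hμ1, zero_mul, map_zero, add_zero]
    · show κ x 1 z + tz p m (μ x * E.ee 1 z) = 0
      rw [hκ.m, hee.l, mul_zero, map_zero, add_zero]
    · show κ x y 1 + tz p m (μ x * E.ee y 1) = 0
      rw [hκ.r, hee.r, mul_zero, map_zero, add_zero]
    · show p ^ (k + 1) • (κ x y z + tz p m (μ x * E.ee y z)) = 0
      rw [smul_add, hκt, hpz, add_zero]
    · have h1 := hd0 (E.s x) (E.s y) (E.s z) (E.s t)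
      have h2 : ∀ x y z, w x y z - d2 (fun x y => c x y + tz p m (μ (E.pi x) * E.et y)) x y z =
          κ (E.pi x) (E.pi y) (E.pi z) + tz p m (μ (E.pi x) * E.ee (E.pi y) (E.pi z)) :=
        fun x y z => sub_eq_of_eq_add (hform x y z)
      unfold d3 at h1 ⊢
      simp only [h2, map_mul E.pi, E.pi_s] at h1
      exact h1
  · right
    exact ⟨h0, c, κ, ν, hc, hw, hκ, coc_of hν hνc,
      pw_nu E q hq hP hbw.cob hinj hw, hμ⟩

end Pool.Agent.H19.ST
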