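import Pool.Agent.H19.ST.Fib

/-!
# [H19 ST CHG] change of state

`chg`: `BB` for `(b, w)` and for `(b - c ∘ q, w - d c)` differ by a constant of absolute value one (`jj_d`, `ts_pl` of H19/AB/Jf, `vb_sub` of H4/AP/Va with `(lam v).val • c`).
-/

set_option autoImplicit false
set_option linter.dupNamespace false

open scoped NumberField ComplexConjugate
open IsDedekindDomain
open scoped Classical

noncomputable section

namespace Pool.Agent.H19.ST

open H63.MA H38.BB H38.BG H57.PC H57.BRA H57.GP H77.PC3 H77.WD Pool.Agent.H19.NF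
  Pool.Agent.H19.AB H86.AP

variable {K : Type} [Field K] [NumberField K] {Ω : Type} [Field Ω] [Algebra K Ω]
  [IsAlgClosure K Ω] {p m : ℕ} {ζ : K} {P G : Type} [Group P] [Fintype P] [Group G] [Finite G]

omit [NumberField K] [IsAlgClosure K Ω] in
private theorem chg_ft {A B : Type} [Group A] [Group B] {φ : Gal(Ω/K) →* A}
    (h : H38.ML.FT φ) (f : A →* B) : H38.ML.FT (f.comp φ) := by
  obtain ⟨E, hE, hE2⟩ := h
  refine ⟨E, hE, fun u hu => ?_⟩
  rw [MonoidHom.mem_ker, MonoidHom.comp_apply, MonoidHom.mem_ker.1 (hE2 hu), map_one]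

private theorem chg_br {A M : Type} [Group A] [AddCommGroup M] (n : ℕ) (c : A → A → M) (s x : A) :
    br (fun x y => n • c x y) s x = n • br c s x := by
  show n • c s x - n • c x s = n • (c s x - c x s)
  rw [smul_sub]

private theorem chg_vg [Fintype P] [NeZero (p ^ m)] (q : P →* G) (b : P → P → ZMod (p ^ m))
    (c : G → G → ZMod (p ^ m)) (n : ℕ) (t : P) (s x : G) :
    Vg q (fun x y => n • (b x y - c (q x) (q y))) t s x =
      Vg q (fun x y => n • b x y) t s x * ec (ZMod.toAddCircle (n • br c s x)) := by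
  have h := _root_.H4.AP.vb_sub q (fun x y => n • b x y) (fun x y => n • c x y) t s x
  have e : (fun x y : P => n • (b x y - c (q x) (q y))) =
      fun x y => n • b x y - n • c (q x) (q y) := by
    funext x y
    rw [smul_sub]
  rw [e, h, chg_br]
  rfl

private theorem chg_pr {ι : Type} [NeZero (p ^ m)] (T : Finset ι) (f : ι → ZMod (p ^ m)) :
    ∏ v ∈ T, ec (ZMod.toAddCircle (f v)) = ec (ZMod.toAddCircle (∑ v ∈ T, f v)) := by
  induction T using Finset.induction_on with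
  | empty => rw [Finset.prod_empty, Finset.sum_empty, map_zero, AddChar.map_zero_eq_one]
  | insert v T hv ih => rw [Finset.prod_insert hv, Finset.sum_insert hv, map_add,
      AddChar.map_add_eq_mul, ih]

theorem chg [NeZero (p ^ m)] (hp : p.Prime) (hζ : IsPrimitiveRoot ζ p) {D : RD0 K p ζ}
    {L : LDs D Ω} {Q : DP K Ω} {Fr : FR L} {lam : Pl K → ZMod p}
    {I : (Gal(Ω/K) → Gal(Ω/K) → Gal(Ω/K) → ZMod (p ^ m)) →+ AddCircle (1 : ℝ)}
    (hI : Fnl p D L Q Fr lam m I) (hP : ∀ x : P, x ^ p = 1) (φ₁ : Gal(Ω/K) →* P)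
    (h₁ : H38.ML.FT φ₁) (q : P →* G) (hq : Function.Surjective q) (b : P → P → ZMod (p ^ m))
    (w : G → G → G → ZMod (p ^ m)) {c : G → G → ZMod (p ^ m)} (hc : Nr2 c) (T : Finset (Pl K))
    (hT : ∀ v ∈ T, v ∉ D.S0) (γ : Pl K → P) :
    BB L Q Fr lam I φ₁ q b w T γ =
      ec (-ZMod.toAddCircle (TS L Fr lam (pl2 c (q.comp φ₁)))) *
        BB L Q Fr lam I φ₁ q (fun x y => b x y - c (q x) (q y))
          (fun x y z => w x y z - d2 c x y z) T γ := by
  have hG : ∀ x : G, x ^ p = 1 := by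
    intro x
    obtain ⟨y, rfl⟩ := hq x
    rw [← map_pow, hP, map_one]
  unfold H86.AP.BB
  rw [Finset.mul_sum]
  refine Finset.sum_congr rfl fun φ hφ => ?_
  obtain ⟨h1, h2⟩ := (mem_xs hp hζ L Q hG (q.comp φ₁) T φ).1 hφ
  have hft := chg_ft h₁ q
  have hj := jj_d hp hI hc hft h1.1 (tme_exp hG _) (tme_exp hG _) h2
  have hts := ts_pl L Fr lam hc φ T fun v hv hvT => (h1.2 v hv).2 hvT
  have hJ : Jf I (fun x y z => w x y z - d2 c x y z) φ (q.comp φ₁) =
      Jf I w φ (q.comp φ₁) - JJ I (d2 c) (q.comp φ₁) φ := by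
    unfold Jf Pool.Agent.H19.AB.JJ
    rw [← map_sub]
    congr 1
    funext x y z
    show w _ _ _ - d2 c _ _ _ - (w _ _ _ - d2 c _ _ _) =
      w _ _ _ - w _ _ _ - (d2 c _ _ _ - d2 c _ _ _)
    abel
  have hV : ∀ v ∈ T, Vg q (fun x y => (lam v).val • (b x y - c (q x) (q y))) (γ v) (φ (L.t v))
      (φ (Fr.F v)) = Vg q (fun x y => (lam v).val • b x y) (γ v) (φ (L.t v)) (φ (Fr.F v)) *
        ec (ZMod.toAddCircle ((lam v).val • br c (φ (L.t v)) (φ (Fr.F v)))) := fun v _ =>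
    chg_vg q b c _ _ _ _
  rw [Finset.prod_congr rfl hV, Finset.prod_mul_distrib, chg_pr, ← hts, hJ, hj]
  have he : ∀ x y z : AddCircle (1 : ℝ), ec x = ec (-z) * (ec (x - (y - z)) * ec y) := by
    intro x y z
    rw [← AddChar.map_add_eq_mul, ← AddChar.map_add_eq_mul]
    congr 1
    abel
  rw [he (Jf I w φ (q.comp φ₁)) (ZMod.toAddCircle (TS L Fr lam (pl2 c φ)))
    (ZMod.toAddCircle (TS L Fr lam (pl2 c (q.comp φ₁))))]
  ring

end Pool.Agent.H19.ST
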