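import Pool.Agent.H19.ST.Cof

/-!
# [H19 ST NGC] the negligible case

State `(b, κ ∘ π + θ (ν ∪ et))` on `G`, `θ = tz`, `ν` not a coboundary. `F (x, x', z) = V2 x * conj (V2 x') * ch z` on the extension `Xt (e2 ν)` of `H × H`. `exq` for both
factors, `cau`, `mf`, `co_fib`, `co_bd`.
-/

set_option autoImplicit false
set_option linter.dupNamespace false

open scoped NumberField ComplexConjugate
open IsDedekindDomain
open scoped Classical

noncomputable section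

namespace Pool.Agent.H19.ST

open H63.MA H38.BG H57.PC H57.BRA H57.GP H77.PC3 H77.WD Pool.Agent.H19.NF
  Pool.Agent.H19.AB H86.AP H4.AP

variable {K : Type} [Field K] [NumberField K] {Ω : Type} [Field Ω] [Algebra K Ω]
  [IsAlgClosure K Ω] {p m N : ℕ} {ζ : K} {P G H : Type} [Group P] [Fintype P] [Group G]
  [Fintype G] [Group H] [Fintype H]

theorem ngc [NeZero p] [NeZero (p ^ m)] (E : CE p G H) (hp : p.Prime) (hm : 1 ≤ m)
    (hp2 : MOne p K) (hζ : IsPrimitiveRoot ζ p) (hz : Z2 p K) (D : RD K p ζ)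
    (L : LDs D.toRD0 Ω) (Q : DP K Ω) (Fr : FR L)
    (I : (Gal(Ω/K) → Gal(Ω/K) → Gal(Ω/K) → ZMod (p ^ m)) →+ AddCircle (1 : ℝ))
    (hI : Fnl p D.toRD0 L Q Fr D.lam m I) (hP : ∀ x : P, x ^ p = 1) (c : CL p N P)
    (hc : ∀ x : P, x ≠ 1 → ∃ j, IsConj x (c.g j)) (φ₁ : Gal(Ω/K) →* P) (h₁ : H38.ML.FT φ₁)
    (q : P →* G) (hq : Function.Surjective q) (j₀ : Fin N) (hj : q (c.g j₀) = E.i 1)
    {b : P → P → ZMod (p ^ m)} {w : G → G → G → ZMod (p ^ m)}
    {κ : H → H → H → ZMod (p ^ m)} {ν : H → H → ZMod p}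
    (hb : ∀ x y z, d2 b x y z = w (q x) (q y) (q z)) (hw : ∀ x y z, w x y z =
      κ (E.pi x) (E.pi y) (E.pi z) + tz p m (ν (E.pi x) (E.pi y) * E.et z)) (hκ : Nr3 κ)
    (hν : Coc p ν) (hpw : ∀ h, ∑ j ∈ Finset.range p, ν h (h ^ j) = 0)
    (hns : ¬ ∃ μ : H → ZMod p, ∀ x y, d1 μ x y = ν x y) :
    Ng L Fr c j₀ (BB L Q Fr D.lam I φ₁ q b w) := by
  have hF : Fact p.Prime := ⟨hp⟩
  have hν' : Nr2 ν := ⟨hν.l1, hν.r1⟩
  have hG : ∀ x : G, x ^ p = 1 := by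
    intro x
    obtain ⟨y, rfl⟩ := hq x
    rw [← map_pow, hP, map_one]
  have hH : ∀ x : H, x ^ p = 1 := exp_H E hG
  have hlam : ∀ v, v ∉ D.S0 → D.lam v ≠ 0 := fun v hv => lam_ne hp hp2 hζ D L Q Fr hv
  have hψ : (ch p).IsPrimitive := ch_prim
  obtain ⟨Xi, hXf, hXt, hXi, hXu⟩ := xu_fam hp hp2 hζ D L Q Fr
  have hXf' : Finite (Xt (e2 ν) (e2_coc hν)) := xt_fin _ _
  have hXF : Fintype (Xt (e2 ν) (e2_coc hν)) := Fintype.ofFinite _
  have hcz := fn_cz E hp hm hq hb hw hκ hν hH hpw (c.g j₀)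
  refine ⟨Xt (e2 ν) (e2_coc hν), inferInstance, hXF,
    Fn E q b (c.g j₀) (e2_coc hν), (p : ℝ) ^ 2 * Fintype.card P, hcz, ?_,
    fun T T' γ γ' hT hT' => ?_⟩
  · have h1 : (1 : ℝ) ≤ p := by exact_mod_cast hp.one_lt.le
    have h2 : (1 : ℝ) ≤ Fintype.card P := by exact_mod_cast Fintype.card_pos
    nlinarith [one_le_pow₀ (n := 2) h1]
  obtain ⟨cR, ρR, hLR, hexq⟩ := exq E hp hp2 hζ hz D.toRD0 L Q Fr D.lam_one I hP φ₁ h₁ q hq hj
    hb hw hκ hν' T hT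
  obtain ⟨cR', ρR', hLR', hexq'⟩ := exq E hp hp2 hζ hz D.toRD0 L Q Fr D.lam_one I hP φ₁ h₁ q hq
    hj hb hw hκ hν' T' hT'
  -- the condition
  let Qc : (Gal(Ω/K) →* H) → (Gal(Ω/K) →* H) → (T → ZMod p) → (T' → ZMod p) → Prop :=
    fun φ φ' a a' => Lc E L Fr T φ ∧ Lc E L Fr T' φ' ∧ cR φ a = cR' φ' a' ∧
      (∀ v ∈ T, br ν (φ (L.t v)) (φ (Fr.F v)) = 0) ∧
      ∀ v ∈ T', br ν (φ' (L.t v)) (φ' (Fr.F v)) = 0
  have hcau : ∀ (φ φ' : Gal(Ω/K) →* H) (a : T → ZMod p) (a' : T' → ZMod p),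
      ∃ (R : Gal(Ω/K) →* Xt (e2 ν) (e2_coc hν)) (C0 : AddCircle (1 : ℝ)),
        φ ∈ XS L Q (E.pi.comp (q.comp φ₁)) T → φ' ∈ XS L Q (E.pi.comp (q.comp φ₁)) T' →
        Qc φ φ' a a' → H38.ML.FT R ∧
        (∀ σ, (R σ).r = (φ σ, φ' σ)) ∧ (∀ v, v ∉ D.S0 → (R (L.t v)).z = 0) ∧
        ∀ u, D.Gd u → D.q u = cR φ a →
          AB.JJ I w (q.comp φ₁) (tw E (ρR φ a) (kc p ζ Ω (D.pi u))) -
            AB.JJ I w (q.comp φ₁) (tw E (ρR' φ' a') (kc p ζ Ω (D.pi u))) =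
            C0 + ZMod.toAddCircle (tz p m (R (Fr.F u)).z) := by
    intro φ φ' a a'
    by_cases hcond : φ ∈ XS L Q (E.pi.comp (q.comp φ₁)) T ∧
        φ' ∈ XS L Q (E.pi.comp (q.comp φ₁)) T' ∧ Qc φ φ' a a'
    · obtain ⟨h1, h2, h3, h4, h5, h6, h7⟩ := hcond
      have hx := (mem_xs hp hζ L Q hH _ T φ).1 h1
      have hx' := (mem_xs hp hζ L Q hH _ T' φ').1 h2
      have hR' := hLR' φ' h2 h4 a'
      rw [← h5] at hR'
      obtain ⟨R, C0, r1, r2, r3, r4⟩ := cau E hp hp2 hζ hz D.lam_one hI hG hx.1.1 hx'.1.1 hx.2 hx'.2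
        (hLR φ h1 h3 a) hR' hν hpw (fun v hv hvT => (hx.1.2 v hv).2 hvT)
        (fun v hv hvT => (hx'.1.2 v hv).2 hvT) h6 h7 hw
      exact ⟨R, C0, fun _ _ _ => ⟨r1, r2, r3, r4⟩⟩
    · exact ⟨1, 0, fun h1 h2 h3 => absurd ⟨h1, h2, h3⟩ hcond⟩
  choose Rf C0f hRC using hcau
  -- the data
  let S := (XS L Q (E.pi.comp (q.comp φ₁)) T) ×ˢ (XS L Q (E.pi.comp (q.comp φ₁)) T')
  let f : (Gal(Ω/K) →* H) × (Gal(Ω/K) →* H) →
      ((T → ZMod p) × (T' → ZMod p)) × (((T → ZMod p) × (Fin D.r → ZMod p)) ×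
        ((T' → ZMod p) × (Fin D.r → ZMod p))) → (Gal(Ω/K) →* Xt (e2 ν) (e2_coc hν)) :=
    fun x j => Rx (e2_coc hν) (Rf x.1 x.2 j.1.1 j.1.2)
      (Lam D Xi T j.2.1.1 j.2.1.2 * (Lam D Xi T' j.2.2.1 j.2.2.2)⁻¹)
  let A₁ : (Gal(Ω/K) →* H) → (T → ZMod p) → (T → ZMod p) → (Fin D.r → ZMod p) → ℂ :=
    fun φ a k κ => Af D (ch p) E Fr (cR φ a) (ρR φ a) (gw E q b L D.lam γ φ T a) T k κ
  let A₂ : (Gal(Ω/K) →* H) → (T' → ZMod p) → (T' → ZMod p) → (Fin D.r → ZMod p) → ℂ :=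
    fun φ a k κ => Af D (ch p) E Fr (cR' φ a) (ρR' φ a) (gw E q b L D.lam γ' φ T' a) T' k κ
  let cc : (Gal(Ω/K) →* H) × (Gal(Ω/K) →* H) →
      ((T → ZMod p) × (T' → ZMod p)) × (((T → ZMod p) × (Fin D.r → ZMod p)) ×
        ((T' → ZMod p) × (Fin D.r → ZMod p))) → ℂ :=
    fun x j => if Qc x.1 x.2 j.1.1 j.1.2 then ec (C0f x.1 x.2 j.1.1 j.1.2) *
      A₁ x.1 j.1.1 j.2.1.1 j.2.1.2 * conj (A₂ x.2 j.1.2 j.2.2.1 j.2.2.2) else 0
  have hgB : ∀ (U : Finset (Pl K)) (γ : Pl K → P) (φ : Gal(Ω/K) →* H) (a : U → ZMod p)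
      (v : Pl K) (x : G), ‖gw E q b L D.lam γ φ U a v x‖ ≤ Fintype.card P :=
    fun U γ φ a v x => vb_norm q _ _ _
  have hS : ∀ x, x ∈ S ↔ x.1 ∈ XS L Q (E.pi.comp (q.comp φ₁)) T ∧
      x.2 ∈ XS L Q (E.pi.comp (q.comp φ₁)) T' := fun x => Finset.mem_product
  have hfr : ∀ x ∈ S, ∀ j, cc x j ≠ 0 → ∀ σ, (f x j σ).r = (x.1 σ, x.2 σ) := by
    intro x hx j hne σ
    have hQ : Qc x.1 x.2 j.1.1 j.1.2 := by
      by_contra h
      exact hne (if_neg h)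
    have h2 := (hS x).1 hx
    exact (hRC x.1 x.2 j.1.1 j.1.2 h2.1 h2.2 hQ).2.1 σ
  refine ⟨fun Θ => ∑ x ∈ S, ∑ j, if f x j = Θ then cc x j else 0, fun Θ => ?_,
    fun Θ hΘ hr hr' => ?_, fun u hu huT huT' => ?_⟩
  · -- the bound
    have hp0 : (0 : ℝ) < p := by exact_mod_cast hp.pos
    have hM : ∀ x ∈ S, ∀ j, ‖cc x j‖ ≤ (((p : ℝ) ^ D.r)⁻¹ * (Fintype.card P : ℝ) ^ T.card) *
        (((p : ℝ) ^ D.r)⁻¹ * (Fintype.card P : ℝ) ^ T'.card) := by
      intro x _ j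
      show ‖(if Qc x.1 x.2 j.1.1 j.1.2 then ec (C0f x.1 x.2 j.1.1 j.1.2) *
        A₁ x.1 j.1.1 j.2.1.1 j.2.1.2 * conj (A₂ x.2 j.1.2 j.2.2.1 j.2.2.2) else 0 : ℂ)‖ ≤ _
      split_ifs
      · rw [norm_mul, norm_mul, ec_norm, one_mul, RCLike.norm_conj]
        exact mul_le_mul (af_norm D hp (ch p) E Fr _ _ (hgB T γ x.1 j.1.1) T _ _)
          (af_norm D hp (ch p) E Fr _ _ (hgB T' γ' x.2 j.1.2) T' _ _) (norm_nonneg _)
          (by positivity)
      · rw [norm_zero]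
        positivity
    refine (co_bd S f cc (fun x hx y hy j j' h1 h2 h3 => ?_) (by positivity) hM Θ).trans ?_
    · refine Prod.ext (MonoidHom.ext fun σ => ?_) (MonoidHom.ext fun σ => ?_)
      · have h4 := hfr x hx j h2 σ
        rw [h1, hfr y hy j' h3 σ] at h4
        exact (congrArg Prod.fst h4).symm
      · have h4 := hfr x hx j h2 σ
        rw [h1, hfr y hy j' h3 σ] at h4
        exact (congrArg Prod.snd h4).symm
    · have h5 : (Fintype.card (((T → ZMod p) × (T' → ZMod p)) × (((T → ZMod p) ×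
          (Fin D.r → ZMod p)) × ((T' → ZMod p) × (Fin D.r → ZMod p)))) : ℝ) =
          ((p : ℝ) ^ T.card * (p : ℝ) ^ T'.card) * (((p : ℝ) ^ T.card * (p : ℝ) ^ D.r) *
            ((p : ℝ) ^ T'.card * (p : ℝ) ^ D.r)) := by
        simp only [Fintype.card_prod, Fintype.card_pi, ZMod.card, Finset.prod_const,
          Finset.card_univ, Fintype.card_coe, Fintype.card_fin]
        push_cast
        ring
      have h6 : (p : ℝ) ^ D.r ≠ 0 := (pow_pos hp0 _).ne'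
      have h7 : (1 : ℝ) ≤ (p : ℝ) ^ 2 * Fintype.card P := by
        have h1 : (1 : ℝ) ≤ p := by exact_mod_cast hp.one_lt.le
        have h2 : (1 : ℝ) ≤ Fintype.card P := by exact_mod_cast Fintype.card_pos
        nlinarith [one_le_pow₀ (n := 2) h1]
      rw [h5]
      have h8 : ((p : ℝ) ^ T.card * (p : ℝ) ^ T'.card) * (((p : ℝ) ^ T.card * (p : ℝ) ^ D.r) *
            ((p : ℝ) ^ T'.card * (p : ℝ) ^ D.r)) *
          ((((p : ℝ) ^ D.r)⁻¹ * (Fintype.card P : ℝ) ^ T.card) *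
          (((p : ℝ) ^ D.r)⁻¹ * (Fintype.card P : ℝ) ^ T'.card)) =
          ((p : ℝ) ^ 2 * Fintype.card P) ^ (T.card + T'.card) := by
        rw [mul_pow, ← pow_mul, pow_add (Fintype.card P : ℝ), mul_add, pow_add (p : ℝ),
          mul_comm 2 T.card, mul_comm 2 T'.card, pow_mul, pow_mul]
        field_simp
      rw [h8]
      exact pow_le_pow_right₀ h7 (Nat.le_succ _)
  · -- the mean
    obtain ⟨x, hx, hx2⟩ := Finset.exists_ne_zero_of_sum_ne_zero hΘ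
    obtain ⟨j, -, hj2⟩ := Finset.exists_ne_zero_of_sum_ne_zero hx2
    have hfx : f x j = Θ := by
      by_contra h
      exact hj2 (if_neg h)
    rw [if_pos hfx] at hj2
    have hQ : Qc x.1 x.2 j.1.1 j.1.2 := by
      by_contra h
      exact hj2 (if_neg h)
    have hx' := (hS x).1 hx
    have hm1 := (mem_xs hp hζ L Q hH _ T x.1).1 hx'.1
    have hm2 := (mem_xs hp hζ L Q hH _ T' x.2).1 hx'.2
    have hcc : cc x j = ec (C0f x.1 x.2 j.1.1 j.1.2) *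
      A₁ x.1 j.1.1 j.2.1.1 j.2.1.2 * conj (A₂ x.2 j.1.2 j.2.2.1 j.2.2.2) := if_pos hQ
    have hA1 : A₁ x.1 j.1.1 j.2.1.1 j.2.1.2 ≠ 0 := by
      intro h
      apply hj2
      rw [hcc, h, mul_zero, zero_mul]
    have hA2 : A₂ x.2 j.1.2 j.2.2.1 j.2.2.2 ≠ 0 := by
      intro h
      apply hj2
      rw [hcc, h, map_zero, mul_zero]
    have key : ∀ (U : Finset (Pl K)) (γ : Pl K → P) (φ : Gal(Ω/K) →* H) (a : U → ZMod p)
        (c' : Fin D.r → ZMod p) (ρ : Gal(Ω/K) →* G) (k : U → ZMod p) (κ : Fin D.r → ZMod p),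
        Af D (ch p) E Fr c' ρ (gw E q b L D.lam γ φ U a) U k κ ≠ 0 → ∀ v ∈ U,
        IsConj (φ (L.t v)) (E.pi (q (γ v))) := by
      intro U γ φ a c' ρ k κ hne v hv
      have h1 := Finset.prod_ne_zero_iff.1 (right_ne_zero_of_mul hne) ⟨v, hv⟩ (Finset.mem_univ _)
      obtain ⟨y, hy⟩ := fh_ne (left_ne_zero_of_mul h1)
      exact gw_cl E q b L γ hv hy
    have hall : ∀ g : H, g = 1 ∨ ∃ i, i ≠ j₀ ∧ IsConj (E.pi (q (c.g i))) g := by
      intro g
      obtain ⟨y, hy⟩ := hq (E.s g)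
      have hy' : E.pi (q y) = g := by rw [hy, E.pi_s]
      by_cases h1 : y = 1
      · left
        rw [← hy', h1, map_one, map_one]
      · obtain ⟨i, hi⟩ := hc y h1
        have h2 : IsConj g (E.pi (q (c.g i))) := by
          rw [← hy']
          exact E.pi.map_isConj (q.map_isConj hi)
        by_cases h3 : i = j₀
        · left
          rw [h3, hj, E.pi_i] at h2
          exact isConj_one_left.1 h2
        · exact Or.inr ⟨i, h3, h2.symm⟩
    have honto := onto2 hp hH x.1 x.2 (fun g => by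
      rcases hall g with h1 | ⟨i, hi, h1⟩
      · exact ⟨1, by rw [map_one, h1], map_one _⟩
      · obtain ⟨v, hv, hv', hγ⟩ := hr i hi
        refine ⟨L.t v, ?_, (hm2.1.2 v (hT v hv)).2 hv'⟩
        have h2 := key T γ x.1 j.1.1 _ _ _ _ hA1 v hv
        rw [hγ] at h2
        exact h2.trans h1) (fun g => by
      rcases hall g with h1 | ⟨i, hi, h1⟩
      · exact ⟨1, by rw [map_one, h1], map_one _⟩
      · obtain ⟨v, hv, hv', hγ⟩ := hr' i hi
        refine ⟨L.t v, ?_, (hm1.1.2 v (hT' v hv)).2 hv'⟩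
        have h2 := key T' γ' x.2 j.1.2 _ _ _ _ hA2 v hv
        rw [hγ] at h2
        exact h2.trans h1)
    obtain ⟨σ, hσ1, hσ2⟩ := xt_cent hp (e2_coc hν) Θ (fun r => by
      obtain ⟨σ, hσ⟩ := honto r
      refine ⟨σ, ?_⟩
      rw [← hfx, hfr x hx j hj2 σ]
      exact hσ) (nsp hν hns) 1
    have hne1 : ch p (1 : ZMod p) ≠ 1 := fun h => one_ne_zero (ch_inj p h)
    refine mr_cent Θ _ (Θ σ) ⟨σ, rfl⟩ hne1 fun y => ?_
    have h3 : Θ σ = ⟨1, 1⟩ := by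
      rw [Xt.ext_iff]
      exact ⟨hσ1, hσ2⟩
    rw [h3]
    exact fn_cent E q b (c.g j₀) (e2_coc hν) y 1
  · -- the identity
    have hwt : ∀ x ∈ S, ∀ j, cc x j ≠ 0 → f x j ∈ HS L (Xt (e2 ν) (e2_coc hν)) (T ∪ T') := by
      intro x hx j hne
      have hQ : Qc x.1 x.2 j.1.1 j.1.2 := by
        by_contra h
        exact hne (if_neg h)
      have hx' := (hS x).1 hx
      have hm1 := (mem_xs hp hζ L Q hH _ T x.1).1 hx'.1
      have hm2 := (mem_xs hp hζ L Q hH _ T' x.2).1 hx'.2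
      obtain ⟨r1, r2, r3, -⟩ := hRC x.1 x.2 j.1.1 j.1.2 hx'.1 hx'.2 hQ
      rw [mem_hs hp hζ L hcz.exp]
      refine ⟨?_, fun v hv => ⟨hcz.exp _, fun hvT => ?_⟩⟩
      · obtain ⟨F, hF', h2⟩ := ft_prod r1 (ft_prod (lam_ft D Xi hp hζ hXf T j.2.1.1 j.2.1.2)
          (lam_ft D Xi hp hζ hXf T' j.2.2.1 j.2.2.2))
        refine ⟨F, hF', fun u hu => ?_⟩
        have h3 := MonoidHom.mem_ker.1 (h2 hu)
        have h4 : Rf x.1 x.2 j.1.1 j.1.2 u = 1 := congrArg Prod.fst h3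
        have h5 : Lam D Xi T j.2.1.1 j.2.1.2 u = 1 := congrArg (fun y => y.2.1) h3
        have h6 : Lam D Xi T' j.2.2.1 j.2.2.2 u = 1 := congrArg (fun y => y.2.2) h3
        rw [MonoidHom.mem_ker]
        show Rx _ _ _ u = 1
        rw [rx_apply, MonoidHom.mul_apply, MonoidHom.inv_apply, h4, h5, h6]
        rw [Xt.ext_iff]
        refine ⟨rfl, ?_⟩
        show (0 : ZMod p) + Multiplicative.toAdd ((1 : Multiplicative (ZMod p)) * 1⁻¹) = 0
        rw [inv_one, mul_one, toAdd_one, add_zero]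
      · rw [Finset.mem_union, not_or] at hvT
        show Rx _ _ _ (L.t v) = 1
        rw [rx_apply, MonoidHom.mul_apply, MonoidHom.inv_apply, toAdd_mul, toAdd_inv,
          lam_t D Xi hp hζ L hXt hT _ _ hv, lam_t D Xi hp hζ L hXt hT' _ _ hv, dif_neg hvT.1,
          dif_neg hvT.2, r3 v hv, r2]
        rw [Xt.ext_iff]
        refine ⟨?_, ?_⟩
        · show ((x.1 (L.t v), x.2 (L.t v)) : H × H) = 1
          rw [(hm1.1.2 v hv).2 hvT.1, (hm2.1.2 v hv).2 hvT.2]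
          rfl
        · show (0 : ZMod p) + (0 + -0) = 0
          ring
    have hid := co_fib S (HS L (Xt (e2 ν) (e2_coc hν)) (T ∪ T')) f cc
      (fun Θ => Fn E q b (c.g j₀) (e2_coc hν) (Θ (Fr.F u))) hwt
    unfold Ev
    rw [hid, hexq γ u hu huT, hexq' γ' u hu huT', map_sum, Finset.sum_mul_sum]
    have hS' : ∀ g : (Gal(Ω/K) →* H) × (Gal(Ω/K) →* H) → ℂ, ∑ x ∈ S, g x =
        ∑ φ ∈ XS L Q (E.pi.comp (q.comp φ₁)) T, ∑ φ' ∈ XS L Q (E.pi.comp (q.comp φ₁)) T',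
          g (φ, φ') := fun g => Finset.sum_product _ _ _
    rw [hS']
    refine Finset.sum_congr rfl fun φ hφ => Finset.sum_congr rfl fun φ' hφ' => ?_
    rw [map_sum, Finset.sum_mul_sum, Fintype.sum_prod_type, Fintype.sum_prod_type]
    refine Finset.sum_congr rfl fun a _ => Finset.sum_congr rfl fun a' _ => ?_
    -- the two expansions
    have hmf := mf D Xi hp hp2 hζ hψ E Q Fr hXi (cR φ a) (ρR φ a)
      (gw E q b L D.lam γ φ T a) T hT hu
    have hmf' := mf D Xi hp hp2 hζ hψ E Q Fr hXi (cR' φ' a') (ρR' φ' a')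
      (gw E q b L D.lam γ' φ' T' a') T' hT' hu
    by_cases hQ : Qc φ φ' a a'
    · obtain ⟨r1, r2, r3, r4⟩ := hRC φ φ' a a' hφ hφ' hQ
      have hR : ∀ j : ((T → ZMod p) × (Fin D.r → ZMod p)) × ((T' → ZMod p) × (Fin D.r → ZMod p)),
          cc (φ, φ') ((a, a'), j) * Fn E q b (c.g j₀) (e2_coc hν)
            (f (φ, φ') ((a, a'), j) (Fr.F u)) =
          ec (C0f φ φ' a a') * (V2 E q b (c.g j₀) (φ (Fr.F u)) *
            conj (V2 E q b (c.g j₀) (φ' (Fr.F u)))) * ch p (Rf φ φ' a a' (Fr.F u)).z *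
          ((A₁ φ a j.1.1 j.1.2 * ch p (Multiplicative.toAdd (Lam D Xi T j.1.1 j.1.2 (Fr.F u)))) *
            conj (A₂ φ' a' j.2.1 j.2.2 *
              ch p (Multiplicative.toAdd (Lam D Xi T' j.2.1 j.2.2 (Fr.F u))))) := by
        intro j
        have h1 : cc (φ, φ') ((a, a'), j) = ec (C0f φ φ' a a') *
          A₁ φ a j.1.1 j.1.2 * conj (A₂ φ' a' j.2.1 j.2.2) := if_pos hQ
        have h2 : f (φ, φ') ((a, a'), j) (Fr.F u) = ⟨(φ (Fr.F u), φ' (Fr.F u)),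
            (Rf φ φ' a a' (Fr.F u)).z + (Multiplicative.toAdd (Lam D Xi T j.1.1 j.1.2 (Fr.F u)) +
              -Multiplicative.toAdd (Lam D Xi T' j.2.1 j.2.2 (Fr.F u)))⟩ := by
          show Rx _ _ _ (Fr.F u) = _
          rw [rx_apply, MonoidHom.mul_apply, MonoidHom.inv_apply, toAdd_mul, toAdd_inv, r2]
        rw [h1, h2]
        unfold Fn
        rw [AddChar.map_add_eq_mul, AddChar.map_add_eq_mul, map_mul conj, ch_conj]
        ring
      have hss : ∀ (a1 : (T → ZMod p) × (Fin D.r → ZMod p) → ℂ)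
          (a2 : (T' → ZMod p) × (Fin D.r → ZMod p) → ℂ),
          ∑ j : ((T → ZMod p) × (Fin D.r → ZMod p)) × ((T' → ZMod p) × (Fin D.r → ZMod p)),
            a1 j.1 * conj (a2 j.2) = (∑ i, a1 i) * conj (∑ i, a2 i) := by
        intro a1 a2
        rw [Fintype.sum_prod_type, map_sum, Finset.sum_mul_sum]
      rw [Finset.sum_congr rfl fun j _ => hR j, ← Finset.mul_sum,
        hss (fun i => A₁ φ a i.1 i.2 *
          ch p (Multiplicative.toAdd (Lam D Xi T i.1 i.2 (Fr.F u))))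
          (fun i => A₂ φ' a' i.1 i.2 *
          ch p (Multiplicative.toAdd (Lam D Xi T' i.1 i.2 (Fr.F u))))]
      have hs1 : ∑ i : (T → ZMod p) × (Fin D.r → ZMod p), A₁ φ a i.1 i.2 *
          ch p (Multiplicative.toAdd (Lam D Xi T i.1 i.2 (Fr.F u))) =
          if D.q u = cR φ a then ∏ v ∈ T, gw E q b L D.lam γ φ T a v
            (tw E (ρR φ a) (kc p ζ Ω (D.pi u)) (Fr.F v)) else 0 := by
        rw [hmf, Fintype.sum_prod_type]
      have hs2 : ∑ i : (T' → ZMod p) × (Fin D.r → ZMod p), A₂ φ' a' i.1 i.2 *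
          ch p (Multiplicative.toAdd (Lam D Xi T' i.1 i.2 (Fr.F u))) =
          if D.q u = cR' φ' a' then ∏ v ∈ T', gw E q b L D.lam γ' φ' T' a' v
            (tw E (ρR' φ' a') (kc p ζ Ω (D.pi u)) (Fr.F v)) else 0 := by
        rw [hmf', Fintype.sum_prod_type]
      rw [hs1, hs2]
      by_cases hqu : D.q u = cR φ a
      · have hqu' : D.q u = cR' φ' a' := by rw [hqu, hQ.2.2.1]
        rw [if_pos ⟨hQ.1, hqu⟩, if_pos ⟨hQ.2.1, hqu'⟩, if_pos hqu, if_pos hqu']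
        have h1 := r4 u hu hqu
        have h2 : ec (Jf I w (tw E (ρR φ a) (kc p ζ Ω (D.pi u))) (q.comp φ₁)) *
            conj (ec (Jf I w (tw E (ρR' φ' a') (kc p ζ Ω (D.pi u))) (q.comp φ₁))) =
            ec (C0f φ φ' a a') * ch p (Rf φ φ' a a' (Fr.F u)).z := by
          have h3 : ∀ x : AddCircle (1 : ℝ), conj (ec x) = ec (-x) := by
            intro x
            have h4 : ec x * ec (-x) = 1 := by
              rw [← AddChar.map_add_eq_mul, add_neg_cancel, AddChar.map_zero_eq_one]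
            have h5 : ec x * conj (ec x) = 1 := by
              rw [Complex.mul_conj, Complex.normSq_eq_norm_sq, ec_norm]
              simp
            have h6 : ec x ≠ 0 := by
              intro h
              rw [h, zero_mul] at h4
              exact zero_ne_one h4
            exact mul_left_cancel₀ h6 (h5.trans h4.symm)
          rw [h3, ← AddChar.map_add_eq_mul, ← tz_ch hp hm, ← AddChar.map_add_eq_mul]
          congr 1
          rw [← h1, sub_eq_add_neg]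
          rfl
        rw [map_mul conj, map_mul conj]
        linear_combination (V2 E q b (c.g j₀) (φ (Fr.F u)) *
          (∏ v ∈ T, gw E q b L D.lam γ φ T a v
            (tw E (ρR φ a) (kc p ζ Ω (D.pi u)) (Fr.F v))) *
          (conj (V2 E q b (c.g j₀) (φ' (Fr.F u))) *
            conj (∏ v ∈ T', gw E q b L D.lam γ' φ' T' a' v
              (tw E (ρR' φ' a') (kc p ζ Ω (D.pi u)) (Fr.F v))))) * h2
      · rw [if_neg (fun h => hqu h.2), if_neg hqu, zero_mul, zero_mul, mul_zero]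
    · have h0 : ∀ j : ((T → ZMod p) × (Fin D.r → ZMod p)) ×
          ((T' → ZMod p) × (Fin D.r → ZMod p)), cc (φ, φ') ((a, a'), j) = 0 := fun j => if_neg hQ
      rw [Finset.sum_eq_zero fun j _ => by rw [h0, zero_mul]]
      by_cases hc1 : Lc E L Fr T φ ∧ D.q u = cR φ a
      swap
      · rw [if_neg hc1, zero_mul]
      by_cases hc2 : Lc E L Fr T' φ' ∧ D.q u = cR' φ' a'
      swap
      · rw [if_neg hc2, map_zero, mul_zero]
      rw [if_pos hc1, if_pos hc2]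
      have hprod : ∀ (U : Finset (Pl K)) (hU : ∀ v ∈ U, v ∉ D.S0) (γ : Pl K → P)
          (φ : Gal(Ω/K) →* H) (a : U → ZMod p) (ρ : Gal(Ω/K) →* G), E.pi.comp ρ = φ →
          ¬ (∀ v ∈ U, br ν (φ (L.t v)) (φ (Fr.F v)) = 0) →
          ∏ v ∈ U, gw E q b L D.lam γ φ U a v (tw E ρ (kc p ζ Ω (D.pi u)) (Fr.F v)) = 0 := by
        intro U hU γ φ a ρ hρ hne
        push Not at hne
        obtain ⟨v, hv, hne⟩ := hne
        refine Finset.prod_eq_zero hv ?_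
        by_contra h
        apply hne
        have h1 := gw_nu E hp hm hq hb hw hκ hν' L γ hv (hlam v (hU v hv)) h
        have h2 : E.pi (tw E ρ (kc p ζ Ω (D.pi u)) (Fr.F v)) = φ (Fr.F v) := by
          rw [← hρ]
          exact DFunLike.congr_fun (tw_pi E ρ (kc p ζ Ω (D.pi u))) (Fr.F v)
        rwa [h2] at h1
      by_cases hb1 : ∀ v ∈ T, br ν (φ (L.t v)) (φ (Fr.F v)) = 0
      swap
      · rw [hprod T hT γ φ a _ (hLR φ hφ hc1.1 a).pi hb1, mul_zero, zero_mul]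
      by_cases hb2 : ∀ v ∈ T', br ν (φ' (L.t v)) (φ' (Fr.F v)) = 0
      swap
      · rw [hprod T' hT' γ' φ' a' _ (hLR' φ' hφ' hc2.1 a').pi hb2, mul_zero, map_zero, mul_zero]
      exact absurd ⟨hc1.1, hc2.1, hc1.2.symm.trans hc2.2, hb1, hb2⟩ hQ

end Pool.Agent.H19.ST
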