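import Pool.Agent.H19.ST.Mnc
import Pool.Agent.H19.ST.Ngc
import Pool.Agent.H19.ST.Cas
import Pool.Agent.H19.AB.Leq

/-!
# [H19 ST STF] the step theorem of AP

`step_pf` (= `step` of H86/AP/Stp with `LfT`): `ce_ex`, `cas`, `chg`, then `mnc` (main case) or `ngc` (negligible case); the weights `lam` are those of `D` (`lam_eq`).
-/

set_option autoImplicit false
set_option linter.dupNamespace false

open scoped NumberField ComplexConjugate
open IsDedekindDomain
open scoped Classical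

noncomputable section

namespace H86.AP

open H63.MA H38.BB H38.BG H57.PC H57.BRA H57.GP H77.PC3 H77.WD Pool.Agent.H19.NF
  Pool.Agent.H19.AB Pool.Agent.H19.ST

variable {K : Type} [Field K] [NumberField K] {Ω : Type} [Field Ω] [Algebra K Ω]
  {p m N : ℕ} {ζ : K}

private theorem bb_lam {D : RD0 K p ζ} (L : LDs D Ω) (Q : DP K Ω) (Fr : FR L) {P G : Type}
    [Group P] [Fintype P] [Group G] [NeZero (p ^ m)]
    (I : (Gal(Ω/K) → Gal(Ω/K) → Gal(Ω/K) → ZMod (p ^ m)) →+ AddCircle (1 : ℝ))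
    (φ₁ : Gal(Ω/K) →* P) (q : P →* G) (b : P → P → ZMod (p ^ m)) (w : G → G → G → ZMod (p ^ m))
    {lam lam' : Pl K → ZMod p} (h : ∀ v, v ∉ D.S0 → lam v = lam' v) (T : Finset (Pl K))
    (hT : ∀ v ∈ T, v ∉ D.S0) (γ : Pl K → P) :
    BB L Q Fr lam I φ₁ q b w T γ = BB L Q Fr lam' I φ₁ q b w T γ := by
  unfold BB
  refine Finset.sum_congr rfl fun φ _ => ?_
  congr 1
  refine Finset.prod_congr rfl fun v hv => ?_
  rw [h v (hT v hv)]

private theorem mn_mul {D : RD0 K p ζ} (L : LDs D Ω) (Fr : FR L) {P : Type} [Group P]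
    (c : CL p N P) (j₀ : Fin N) {X X' : Finset (Pl K) → (Pl K → P) → ℂ} (a : ℂ) (ha : ‖a‖ ≤ 1)
    (hX : ∀ T γ, (∀ v ∈ T, v ∉ D.S0) → X T γ = a * X' T γ) (h : Mn L Fr c j₀ X') :
    Mn L Fr c j₀ X := by
  obtain ⟨H, i1, i2, F, C, h1, h2, h3⟩ := h
  refine ⟨H, i1, i2, F, C, h1, h2, fun T γ hT => ?_⟩
  obtain ⟨co, h4, h5, h6⟩ := h3 T γ hT
  refine ⟨fun Θ => a * co Θ, fun Θ => ?_, fun Θ hΘ hj => h5 Θ (right_ne_zero_of_mul hΘ) hj,
    fun u hu huT => ?_⟩
  · rw [norm_mul]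
    exact (mul_le_of_le_one_left (norm_nonneg _) ha).trans (h4 Θ)
  · rw [hX _ _ fun v hv => ?_, h6 u hu huT]
    · unfold Ev
      rw [Finset.mul_sum]
      refine Finset.sum_congr rfl fun Θ _ => ?_
      ring
    · rcases Finset.mem_insert.1 hv with rfl | hv
      · exact hu.1
      · exact hT v hv

private theorem ng_mul {D : RD0 K p ζ} (L : LDs D Ω) (Fr : FR L) {P : Type} [Group P]
    (c : CL p N P) (j₀ : Fin N) {X X' : Finset (Pl K) → (Pl K → P) → ℂ} (a : ℂ) (ha : ‖a‖ ≤ 1)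
    (hX : ∀ T γ, (∀ v ∈ T, v ∉ D.S0) → X T γ = a * X' T γ) (h : Ng L Fr c j₀ X') :
    Ng L Fr c j₀ X := by
  obtain ⟨H, i1, i2, F, C, h1, h2, h3⟩ := h
  refine ⟨H, i1, i2, F, C, h1, h2, fun T T' γ γ' hT hT' => ?_⟩
  obtain ⟨co, h4, h5, h6⟩ := h3 T T' γ γ' hT hT'
  have hi : ∀ (T : Finset (Pl K)) (u : Pl K), (∀ v ∈ T, v ∉ D.S0) → D.Gd u →
      ∀ v ∈ insert u T, v ∉ D.S0 := by
    intro T u hT hu v hv
    rcases Finset.mem_insert.1 hv with rfl | hv
    · exact hu.1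
    · exact hT v hv
  refine ⟨fun Θ => a * conj a * co Θ, fun Θ => ?_, fun Θ hΘ hj hj' =>
    h5 Θ (right_ne_zero_of_mul hΘ) hj hj', fun u hu huT huT' => ?_⟩
  · rw [norm_mul, norm_mul, RCLike.norm_conj]
    exact (mul_le_of_le_one_left (norm_nonneg _) (mul_le_one₀ ha (norm_nonneg _) ha)).trans (h4 Θ)
  · have h7 := h6 u hu huT huT'
    rw [hX _ _ (hi T u hT hu), hX _ _ (hi T' u hT' hu), map_mul]
    have h8 : ∀ x y : ℂ, a * x * (conj a * conj y) = a * conj a * (x * conj y) := fun x y => by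
      ring
    rw [h8, h7]
    unfold Ev
    rw [Finset.mul_sum]
    refine Finset.sum_congr rfl fun Θ _ => ?_
    ring

private theorem ts_triv {D : RD0 K p ζ} (L : LDs D Ω) (Fr : FR L) (lam : Pl K → ZMod p)
    {G M : Type} [Group G] [AddCommGroup M] {c : G → G → M}
    {φ : Gal(Ω/K) →* G} (hφ : φ = 1) : TS L Fr lam (pl2 c φ) = 0 := by
  subst hφ
  unfold TS
  rw [← finsum_zero (α := Pl K)]
  refine finsum_congr fun v => ?_
  have h1 : br (pl2 c (1 : Gal(Ω/K) →* G)) (L.t v) (Fr.F v) = 0 := by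
    show c 1 1 - c 1 1 = 0
    rw [sub_self]
  rw [h1, smul_zero]

private theorem d2_q {A B M : Type} [Group A] [Group B] [AddCommGroup M] (q : A →* B)
    (c : B → B → M) (x y z : A) :
    d2 (fun x y => c (q x) (q y)) x y z = d2 c (q x) (q y) (q z) := by
  unfold d2
  beta_reduce
  rw [map_mul, map_mul]

/-- the step theorem (LfT form) -/
theorem step_pf [IsAlgClosure K Ω] [NeZero (p ^ m)] (hp : p.Prime) (hp2 : p ≠ 2)
    (hζ : IsPrimitiveRoot ζ p) {z : K} (hz : IsPrimitiveRoot z (p ^ (m + 1)))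
    (_hzζ : z ^ (p ^ m) = ζ) (D : RD K p ζ) (L : LDs D.toRD0 Ω) (Q : DP K Ω) (Fr : FR L)
    {lam : Pl K → ZMod p} (hlam : IsRec p ζ lam) (hone : ∀ v, D.Gd v → lam v = 1)
    (I : (Gal(Ω/K) → Gal(Ω/K) → Gal(Ω/K) → ZMod (p ^ m)) →+ AddCircle (1 : ℝ))
    (hI : ∀ Ψ : Gal(Ω/K) → Gal(Ω/K) → ZMod (p ^ m), LfT L Ψ → Rel D.toRD0 Q Ψ →
      I (d2 Ψ) = ZMod.toAddCircle (TS L Fr lam Ψ))
    {P : Type} [Group P] [Fintype P] (hP : ∀ x : P, x ^ p = 1) (c : CL p N P)
    (hc : ∀ x : P, x ≠ 1 → ∃ j, IsConj x (c.g j)) (φ₁ : Gal(Ω/K) →* P) (h₁ : H38.ML.FT φ₁)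
    {G : Type} [Group G] [Fintype G] [Nontrivial G] (q : P →* G) (hq : Function.Surjective q)
    {k : ℕ} (hk : k + 1 ≤ m) (b : P → P → ZMod (p ^ m)) (w : G → G → G → ZMod (p ^ m))
    (hbw : Sta p m k q b w) :
    ∃ (G' : Type) (_ : Group G') (_ : Fintype G') (π : G →* G') (j₀ : Fin N),
      Function.Surjective π ∧ Nat.card G = p * Nat.card G' ∧
      ((¬ (b = 0 ∧ w = 0) ∧ Ng L Fr c j₀ (BB L Q Fr lam I φ₁ q b w)) ∨
      ∃ (n : ℕ) (κ : Fin n → ℂ) (bs : Fin n → P → P → ZMod (p ^ m))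
        (ws : Fin n → G' → G' → G' → ZMod (p ^ m)),
        (∀ i, Sta p m (k + 1) (π.comp q) (bs i) (ws i)) ∧
        (φ₁ = 1 → ∀ i, ∃ r : ℝ, 0 < r ∧ κ i = r) ∧
        (b = 0 → w = 0 → ∃ i, bs i = 0 ∧ ws i = 0) ∧
        Mn L Fr c j₀ fun T γ => BB L Q Fr lam I φ₁ q b w T γ -
          ∑ i, κ i * BB L Q Fr lam I φ₁ (π.comp q) (bs i) (ws i) T γ) := by
  have hF : Fact p.Prime := ⟨hp⟩
  have hp0 : NeZero p := ⟨hp.ne_zero⟩
  have hm : 1 ≤ m := by omega
  have hM1 : MOne p K := by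
    refine ⟨-1, ?_⟩
    exact (hp.odd_of_ne_two hp2).neg_one_pow
  have hZ2 : Z2 p K := by
    refine ⟨z ^ p ^ (m - 1), hz.pow (pow_pos hp.pos _) ?_⟩
    rw [← pow_add]
    congr 1
    omega
  have hG : ∀ x : G, x ^ p = 1 := by
    intro x
    obtain ⟨y, rfl⟩ := hq x
    rw [← map_pow, hP, map_one]
  have hle : ∀ v, v ∉ D.S0 → lam v = D.lam v := fun v hv =>
    lam_eq hp hM1 hζ hZ2 D L Q Fr hlam hone hv
  have hIf : Fnl p D.toRD0 L Q Fr D.lam m I := fnl_lam hle hI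
  obtain ⟨G', iG, iF, ⟨E⟩, hcard⟩ := ce_ex hp hG
  have hπ : Function.Surjective E.pi := fun h => ⟨E.s h, E.pi_s h⟩
  -- the class
  obtain ⟨t₀, ht₀⟩ := hq (E.i 1)
  have hi1 : E.i 1 ≠ 1 := by
    intro h
    have h1 := E.et_i' 1
    rw [h, E.et_one] at h1
    exact zero_ne_one h1
  have ht1 : t₀ ≠ 1 := by
    intro h
    rw [h, map_one] at ht₀
    exact hi1 ht₀.symm
  obtain ⟨j₀, hj₀⟩ := hc t₀ ht1
  have hj : q (c.g j₀) = E.i 1 := by
    have h1 := q.map_isConj hj₀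
    rw [ht₀] at h1
    obtain ⟨g, hg⟩ := isConj_iff.1 h1
    rw [← hg, ← E.cent 1 g, mul_inv_cancel_right]
  refine ⟨G', iG, iF, E.pi, j₀, hπ, hcard, ?_⟩
  rcases cas hp hk E q hq hP hbw with
    ⟨c₁, w', hc1, hct, hw, hw1, hwt, hwd, hz0⟩ | ⟨hne, c₁, κ, ν, hc1, hw, hκ, hν, hpw, hns⟩
  · -- the main case
    right
    have hb' : ∀ x y z, d2 (fun x y => b x y - c₁ (q x) (q y)) x y z =
        w' (E.pi (q x)) (E.pi (q y)) (E.pi (q z)) := by
      intro x y z
      rw [d2_sub, hbw.cob, hw]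
      rw [d2_q, add_sub_cancel_right]
    have hww : (fun x y z => w x y z - d2 c₁ x y z) =
        fun x y z => w' (E.pi x) (E.pi y) (E.pi z) := by
      funext x y z
      rw [hw, add_sub_cancel_right]
    have hmn := mnc E hp hm hM1 hζ hZ2 D L Q Fr I hIf hP c hc φ₁ h₁ q hq j₀ hj hb' hw1
    set a₀ : ℂ := ec (-ZMod.toAddCircle (TS L Fr D.lam (pl2 c₁ (q.comp φ₁)))) with ha₀
    have hpz : ∀ a : ZMod p, p ^ (k + 1) • tz p m a = 0 := by
      intro a
      rw [← map_nsmul, nsmul_eq_mul, Nat.cast_pow, ZMod.natCast_self,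
        zero_pow (Nat.succ_ne_zero k), zero_mul, map_zero]
    have hβ1 : ∀ β ∈ Bh p G', β 1 = 0 := by
      intro β hβ
      have h1 := (Finset.mem_filter.1 hβ).2 1 1
      rw [mul_one] at h1
      exact left_eq_add.1 h1
    let e := (Bh p G').equivFin
    refine ⟨(Bh p G').card, fun i => a₀ * (((p : ℂ) ^ D.r)⁻¹ *
      ec (-ZMod.toAddCircle (TS L Fr D.lam
        (pl2 (be (tz p m) E (e.symm i : G' → ZMod p)) (q.comp φ₁))))),
      fun i x y => b x y - c₁ (q x) (q y) - be (tz p m) E (e.symm i : G' → ZMod p) (q x) (q y),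
      fun i x y z => w' x y z + tz p m ((e.symm i : G' → ZMod p) x * E.ee y z), fun i => ?_,
      fun hφ i => ?_, fun hb0 hw0 => ?_, ?_⟩
    · -- the states
      obtain ⟨β, hβ, hβe⟩ : ∃ β : G' → ZMod p, β ∈ Bh p G' ∧ (e.symm i : G' → ZMod p) = β :=
        ⟨_, (e.symm i).2, rfl⟩
      rw [show (fun i x y => b x y - c₁ (q x) (q y) -
          be (tz p m) E (e.symm i : G' → ZMod p) (q x) (q y)) i =
          (fun x y => b x y - c₁ (q x) (q y) - be (tz p m) E β (q x) (q y)) from by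
        beta_reduce
        rw [hβe], show (fun i x y z => w' x y z +
          tz p m ((e.symm i : G' → ZMod p) x * E.ee y z)) i =
          (fun x y z => w' x y z + tz p m (β x * E.ee y z)) from by
        beta_reduce
        rw [hβe]]
      show Sta p m (k + 1) (E.pi.comp q)
        (fun x y => b x y - c₁ (q x) (q y) - be (tz p m) E β (q x) (q y))
        (fun x y z => w' x y z + tz p m (β x * E.ee y z))
      have hβh : ∀ x y, β (x * y) = β x + β y := (Finset.mem_filter.1 hβ).2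
      have hb1 := hβ1 β hβ
      have hee := ee_nr E
      have hcup : ∀ x y z : G, tz p m (β (E.pi x) * E.ee (E.pi y) (E.pi z)) =
          -d2 (be (tz p m) E β) x y z := by
        intro x y z
        have h1 := cup_et E (θ := tz p m) (ν := fun _ _ => (0 : ZMod p)) (μ := β)
          (fun x y => by
            unfold d1
            rw [hβh]
            ring) x y z
        rw [zero_mul, map_zero] at h1
        exact eq_neg_of_add_eq_zero_left h1.symm
      refine ⟨⟨fun y => ?_, fun x => ?_⟩, ⟨fun y z => ?_, fun x z => ?_, fun x y => ?_⟩,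
        fun x y z => ?_, fun x y z t => ?_, fun x y => ?_, fun x y z => ?_⟩
      · show b 1 y - c₁ (q 1) (q y) - tz p m (β (E.pi (q 1)) * E.et (q y)) = 0
        rw [hbw.nb.l, map_one, hc1.l, map_one, hb1, zero_mul, map_zero, sub_zero, sub_zero]
      · show b x 1 - c₁ (q x) (q 1) - tz p m (β (E.pi (q x)) * E.et (q 1)) = 0
        rw [hbw.nb.r, map_one, hc1.r, E.et_one, mul_zero, map_zero, sub_zero, sub_zero]
      · show w' 1 y z + tz p m (β 1 * E.ee y z) = 0
        rw [hw1.l, hb1, zero_mul, map_zero, add_zero]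
      · show w' x 1 z + tz p m (β x * E.ee 1 z) = 0
        rw [hw1.m, hee.l, mul_zero, map_zero, add_zero]
      · show w' x y 1 + tz p m (β x * E.ee y 1) = 0
        rw [hw1.r, hee.r, mul_zero, map_zero, add_zero]
      · show d2 (fun x y => (fun x y => b x y - c₁ (q x) (q y)) x y -
          (fun x y => be (tz p m) E β (q x) (q y)) x y) x y z =
          w' (E.pi (q x)) (E.pi (q y)) (E.pi (q z)) +
            tz p m (β (E.pi (q x)) * E.ee (E.pi (q y)) (E.pi (q z)))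
        rw [d2_sub, hb', hcup]
        rw [d2_q, sub_eq_add_neg]
      · rw [d3_add, hwd, zero_add]
        have h1 := d3_d2 (fun x y => be (tz p m) E β x y) (E.s x) (E.s y) (E.s z) (E.s t)
        have h2 : ∀ x y z : G, d2 (fun x y => be (tz p m) E β x y) x y z =
            -tz p m (β (E.pi x) * E.ee (E.pi y) (E.pi z)) := fun x y z => by
          rw [hcup, neg_neg]
        unfold d3 at h1 ⊢
        simp only [h2, map_mul E.pi, E.pi_s] at h1
        linear_combination -h1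
      · show p ^ (k + 1) • (b x y - c₁ (q x) (q y) - tz p m (β (E.pi (q x)) * E.et (q y))) = 0
        rw [smul_sub, smul_sub, hct, hpz, pow_succ', mul_smul, hbw.tb, smul_zero, sub_zero,
          sub_zero]
      · show p ^ (k + 1) • (w' x y z + tz p m (β x * E.ee y z)) = 0
        rw [smul_add, hwt, hpz, add_zero]
    · -- positivity
      have hq1 : q.comp φ₁ = 1 := by
        rw [hφ, MonoidHom.comp_one]
      refine ⟨((p : ℝ) ^ D.r)⁻¹, ?_, ?_⟩
      · have h1 : (0 : ℝ) < p := by exact_mod_cast hp.pos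
        positivity
      · show a₀ * (((p : ℂ) ^ D.r)⁻¹ * _) = _
        rw [ha₀, ts_triv L Fr D.lam hq1, ts_triv L Fr D.lam hq1, map_zero, neg_zero,
          AddChar.map_zero_eq_one, one_mul, mul_one]
        push_cast
        rfl
    · -- the zero state
      obtain ⟨h1, h2⟩ := hz0 hb0 hw0
      have h0 : (0 : G' → ZMod p) ∈ Bh p G' := by
        refine Finset.mem_filter.2 ⟨Finset.mem_univ _, fun x y => ?_⟩
        show (0 : ZMod p) = 0 + 0
        rw [add_zero]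
      refine ⟨e ⟨0, h0⟩, ?_, ?_⟩
      · funext x y
        show b x y - c₁ (q x) (q y) -
          be (tz p m) E ((e.symm (e ⟨0, h0⟩) : Bh p G') : G' → ZMod p) (q x) (q y) = 0
        rw [Equiv.symm_apply_apply, hb0, h1]
        show (0 : ZMod (p ^ m)) - 0 - tz p m (0 * E.et (q y)) = 0
        rw [zero_mul, map_zero, sub_zero, sub_zero]
      · funext x y z
        show w' x y z + tz p m (((e.symm (e ⟨0, h0⟩) : Bh p G') : G' → ZMod p) x * E.ee y z) = 0
        rw [Equiv.symm_apply_apply, h2]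
        show (0 : ZMod (p ^ m)) + tz p m (0 * E.ee y z) = 0
        rw [zero_mul, map_zero, add_zero]
    · -- the main term
      refine mn_mul L Fr c j₀ a₀ (by rw [ha₀, H4.AP.ec_norm]) (fun T γ hT => ?_) hmn
      have h1 := chg hp hζ hIf hP φ₁ h₁ q hq b w hc1 T hT γ
      rw [hww] at h1
      rw [bb_lam L Q Fr I φ₁ q b w hle T hT γ, h1, mul_sub, ← ha₀]
      congr 1
      rw [Finset.mul_sum, ← Finset.sum_coe_sort (Bh p G'), ← Equiv.sum_comp e.symm]
      refine Finset.sum_congr rfl fun i _ => ?_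
      rw [bb_lam L Q Fr I φ₁ _ _ _ hle T hT γ]
      ring
  · -- the negligible case
    left
    refine ⟨hne, ?_⟩
    have hb' : ∀ x y z, d2 (fun x y => b x y - c₁ (q x) (q y)) x y z =
        (fun x y z => w x y z - d2 c₁ x y z) (q x) (q y) (q z) := by
      intro x y z
      rw [d2_sub, hbw.cob, d2_q]
    have hw' : ∀ x y z, (fun x y z => w x y z - d2 c₁ x y z) x y z =
        κ (E.pi x) (E.pi y) (E.pi z) + tz p m (ν (E.pi x) (E.pi y) * E.et z) := by
      intro x y z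
      show w x y z - d2 c₁ x y z = _
      rw [hw, add_sub_cancel_right]
    have hng := ngc E hp hm hM1 hζ hZ2 D L Q Fr I hIf hP c hc φ₁ h₁ q hq j₀ hj
      (b := fun x y => b x y - c₁ (q x) (q y)) (w := fun x y z => w x y z - d2 c₁ x y z)
      hb' hw' hκ hν hpw hns
    refine ng_mul L Fr c j₀ (ec (-ZMod.toAddCircle (TS L Fr D.lam (pl2 c₁ (q.comp φ₁)))))
      (by rw [H4.AP.ec_norm]) (fun T γ hT => ?_) hng
    rw [bb_lam L Q Fr I φ₁ q b w hle T hT γ, chg hp hζ hIf hP φ₁ h₁ q hq b w hc1 T hT γ]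

end H86.AP
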